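import Pool.Agent.P.MP_b4265e_pr.Lattice

/-!
Isoperimetry in the lattice, lattice animals of edges, and cutsets.
-/

namespace Pool.Agent.P.MP_b4265e_pr

open Set

variable {d : ℕ}

lemma update_inj (x : V d) (j : Fin d) : Function.Injective (Function.update x j) := by
  intro s t h
  simpa using congrFun h j

lemma exit_up {K : Set (V d)} (hK : K.Finite) {x : V d} (hx : x ∈ K) (j : Fin d) :
    ∃ t : ℕ, t < K.ncard ∧ (Function.update x j (x j + t), j) ∈ bd K := by
  by_contra hcon
  push Not at hcon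
  have hall : ∀ t : ℕ, t ≤ K.ncard → Function.update x j (x j + t) ∈ K := by
    intro t ht
    refine (line_move (S := K) x j (x j) (x j + t) (by omega) ?_).1 (by simpa using hx)
    intro s h1 h2
    have := hcon (s - x j).toNat (by omega)
    have e : x j + ((s - x j).toNat : ℤ) = s := by omega
    rwa [e] at this
  have h1 : (Set.Iic K.ncard).ncard ≤ K.ncard := by
    refine Set.ncard_le_ncard_of_injOn (fun t : ℕ => Function.update x j (x j + t)) hall ?_ hK
    intro s _ t _ h
    have := update_inj x j h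
    omega
  have h2 : (Set.Iic K.ncard).ncard = K.ncard + 1 := by
    rw [← Finset.coe_Iic, Set.ncard_coe_finset]; simp
  omega

lemma exit_down {K : Set (V d)} (hK : K.Finite) {x : V d} (hx : x ∈ K) (j : Fin d) :
    ∃ t : ℤ, t < x j ∧ (Function.update x j t, j) ∈ bd K := by
  by_contra hcon
  push Not at hcon
  have hall : ∀ t : ℤ, t ≤ x j → Function.update x j t ∈ K := by
    intro t ht
    refine (line_move (S := K) x j t (x j) ht ?_).2 (by simpa using hx)
    intro s _ h2
    exact hcon s h2
  have : (Set.Iic (x j)).Finite :=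
    Set.Finite.of_injOn (f := Function.update x j) (t := K) hall (update_inj x j).injOn hK
  exact Set.Iic_infinite _ this

lemma two_mul_le_ncard_bd {K : Set (V d)} (hK : K.Finite) {x : V d} (hx : x ∈ K) :
    2 * d ≤ (bd K).ncard := by
  choose u hu1 hu2 using exit_up hK hx
  choose v hv1 hv2 using exit_down hK hx
  have h : (univ : Set (Bool × Fin d)).ncard ≤ (bd K).ncard := by
    refine Set.ncard_le_ncard_of_injOn (fun a : Bool × Fin d =>
      ((Function.update x a.2 (if a.1 then x a.2 + u a.2 else v a.2), a.2) : E d)) ?_ ?_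
      (finite_bd hK)
    · rintro ⟨b, j⟩ _
      cases b
      · simpa using hv2 j
      · simpa using hu2 j
    · rintro ⟨b, j⟩ _ ⟨b', j'⟩ _ h
      simp only [Prod.mk.injEq] at h
      obtain ⟨h1, rfl⟩ := h
      have h2 := update_inj x j h1
      have := hv1 j
      cases b <;> cases b' <;> simp at h2 ⊢ <;> omega
  simpa [Set.ncard_univ] using h

lemma card_proj_le (K : Finset (V d)) (j : Fin d) :
    (K.image fun x => Function.update x j 0).card ≤ (bd (K : Set (V d))).ncard := by
  classical
  have hfin := finite_bd K.finite_toSet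
  rw [Set.ncard_eq_toFinset_card _ hfin]
  refine le_trans (Finset.card_le_card ?_)
    (Finset.card_image_le (s := hfin.toFinset) (f := fun a : E d => Function.update a.1 j 0))
  intro y hy
  obtain ⟨x, hx, rfl⟩ := Finset.mem_image.1 hy
  obtain ⟨t, _, ht⟩ := exit_up K.finite_toSet (Finset.mem_coe.2 hx) j
  exact Finset.mem_image.2 ⟨_, hfin.mem_toFinset.2 ht, by simp⟩

lemma loomis_whitney (K : Finset (V d)) {i j k : Fin d} (hij : i ≠ j) (hik : i ≠ k) (hjk : j ≠ k) :
    K.card ^ 2 ≤ (K.image fun x => Function.update x k 0).card *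
      ((K.image fun x => Function.update x i 0).card *
        (K.image fun x => Function.update x j 0).card) := by
  classical
  set Pi' := K.image fun x => Function.update x i 0 with hPi
  set Pj := K.image fun x => Function.update x j 0 with hPj
  set Pk := K.image fun x => Function.update x k 0 with hPk
  set A := K.image fun x => (x i, x j) with hA
  set X := K.image fun x => x i with hX
  set Y := K.image fun x => x j with hY
  set b : ℤ → ℕ := fun y => (Pi'.filter fun w => w j = y).card with hb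
  set c : ℤ → ℕ := fun x => (Pj.filter fun w => w i = x).card with hc
  have hAk : A.card ≤ Pk.card := by
    refine le_trans (Finset.card_le_card ?_)
      (Finset.card_image_le (s := Pk) (f := fun w : V d => (w i, w j)))
    intro a ha
    obtain ⟨x, hx, rfl⟩ := Finset.mem_image.1 ha
    exact Finset.mem_image.2 ⟨_, Finset.mem_image.2 ⟨x, hx, rfl⟩, by simp [hik, hjk]⟩
  have hK : K.card = ∑ a ∈ A, (K.filter fun x => (x i, x j) = a).card :=
    Finset.card_eq_sum_card_fiberwise fun x hx => Finset.mem_image.2 ⟨x, hx, rfl⟩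
  have hbs : ∑ y ∈ Y, b y = Pi'.card := by
    symm
    refine Finset.card_eq_sum_card_fiberwise (f := fun w : V d => w j) ?_
    intro w hw
    obtain ⟨x, hx, rfl⟩ := Finset.mem_image.1 hw
    exact Finset.mem_image.2 ⟨x, hx, by simp [hij.symm]⟩
  have hcs : ∑ x ∈ X, c x = Pj.card := by
    symm
    refine Finset.card_eq_sum_card_fiberwise (f := fun w : V d => w i) ?_
    intro w hw
    obtain ⟨x, hx, rfl⟩ := Finset.mem_image.1 hw
    exact Finset.mem_image.2 ⟨x, hx, by simp [hij]⟩
  have hfib : ∀ a ∈ A, (K.filter fun x => (x i, x j) = a).card ^ 2 ≤ c a.1 * b a.2 := by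
    intro a _
    rw [sq]
    apply Nat.mul_le_mul
    · refine Finset.card_le_card_of_injOn (fun x => Function.update x j 0) ?_ ?_
      · intro x hx
        simp only [Finset.coe_filter, mem_ofPred_eq] at hx ⊢
        refine ⟨Finset.mem_image.2 ⟨x, hx.1, rfl⟩, ?_⟩
        rw [← hx.2]; simp [hij]
      · intro x hx y hy h
        simp only [Finset.coe_filter, mem_ofPred_eq] at hx hy h
        funext l
        by_cases hl : l = j
        · have := hx.2.trans hy.2.symm
          rw [hl]; exact (Prod.mk.inj this).2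
        · simpa [hl] using congrFun h l
    · refine Finset.card_le_card_of_injOn (fun x => Function.update x i 0) ?_ ?_
      · intro x hx
        simp only [Finset.coe_filter, mem_ofPred_eq] at hx ⊢
        refine ⟨Finset.mem_image.2 ⟨x, hx.1, rfl⟩, ?_⟩
        rw [← hx.2]; simp [hij.symm]
      · intro x hx y hy h
        simp only [Finset.coe_filter, mem_ofPred_eq] at hx hy h
        funext l
        by_cases hl : l = i
        · have := hx.2.trans hy.2.symm
          rw [hl]; exact (Prod.mk.inj this).1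
        · simpa [hl] using congrFun h l
  have hsub : A ⊆ X ×ˢ Y := by
    intro a ha
    obtain ⟨x, hx, rfl⟩ := Finset.mem_image.1 ha
    exact Finset.mem_product.2 ⟨Finset.mem_image.2 ⟨x, hx, rfl⟩, Finset.mem_image.2 ⟨x, hx, rfl⟩⟩
  calc K.card ^ 2 ≤ A.card * ∑ a ∈ A, (K.filter fun x => (x i, x j) = a).card ^ 2 := by
        rw [hK]; exact sq_sum_le_card_mul_sum_sq
    _ ≤ Pk.card * ∑ a ∈ A, c a.1 * b a.2 := Nat.mul_le_mul hAk (Finset.sum_le_sum hfib)
    _ ≤ Pk.card * ∑ a ∈ X ×ˢ Y, c a.1 * b a.2 :=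
        Nat.mul_le_mul_left _ (Finset.sum_le_sum_of_subset hsub)
    _ = Pk.card * (Pi'.card * Pj.card) := by
        rw [Finset.sum_product, ← hbs, ← hcs, Finset.sum_mul_sum, Finset.sum_comm]
        congr 1
        refine Finset.sum_congr rfl fun y _ => Finset.sum_congr rfl fun x _ => mul_comm _ _

lemma isoperimetric (hd : 3 ≤ d) {K : Set (V d)} (hK : K.Finite) :
    K.ncard ^ 2 ≤ (bd K).ncard ^ 3 := by
  lift K to Finset (V d) using hK
  rw [Set.ncard_coe_finset]
  refine (loomis_whitney K (i := ⟨0, by omega⟩) (j := ⟨1, by omega⟩) (k := ⟨2, by omega⟩)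
    (by simp) (by simp) (by simp)).trans ?_
  calc _ ≤ (bd (K : Set (V d))).ncard * ((bd (K : Set (V d))).ncard * (bd (K : Set (V d))).ncard) :=
        Nat.mul_le_mul (card_proj_le K _) (Nat.mul_le_mul (card_proj_le K _) (card_proj_le K _))
    _ = _ := by ring

/-! Animals. -/

noncomputable def nbrE (a : E d) : Finset (E d) := box a.1 1 ×ˢ Finset.univ

lemma mem_nbrE {a b : E d} : b ∈ nbrE a ↔ near a b := by
  simp [nbrE, mem_box, near]

/-- The degree of the nearness relation. -/
def Dg (d : ℕ) : ℕ := 3 ^ d * d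

lemma card_nbrE (a : E d) : (nbrE a).card = Dg d := by
  simp [nbrE, card_box, Dg]

noncomputable def walks : ℕ → E d → Finset (List (E d))
  | 0, a => {[a]}
  | n + 1, a => (nbrE a).biUnion fun b => (walks n b).image (a :: ·)

lemma card_walks (n : ℕ) (a : E d) : (walks n a).card ≤ Dg d ^ n := by
  induction n generalizing a with
  | zero => simp [walks]
  | succ n ih =>
    rw [walks]
    refine Finset.card_biUnion_le.trans ?_
    calc _ ≤ ∑ _b ∈ nbrE a, Dg d ^ n :=
          Finset.sum_le_sum fun b _ => Finset.card_image_le.trans (ih b)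
      _ = _ := by rw [Finset.sum_const, card_nbrE, smul_eq_mul, pow_succ']

lemma cons_mem_walks {n : ℕ} {a b : E d} {l : List (E d)} (hab : near a b) (hl : l ∈ walks n b) :
    a :: l ∈ walks (n + 1) a := by
  rw [walks]
  exact Finset.mem_biUnion.2 ⟨b, mem_nbrE.2 hab, Finset.mem_image.2 ⟨l, hl, rfl⟩⟩

lemma head_mem_walks {n : ℕ} {a : E d} {l : List (E d)} (hl : l ∈ walks n a) : a ∈ l := by
  cases n with
  | zero => simp [walks] at hl; simp [hl]
  | succ n =>
    rw [walks] at hl
    obtain ⟨b, _, hb⟩ := Finset.mem_biUnion.1 hl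
    obtain ⟨l', _, rfl⟩ := Finset.mem_image.1 hb
    simp

lemma splice {n : ℕ} {a : E d} {l : List (E d)} (hl : l ∈ walks n a) {c b : E d} (hc : c ∈ l)
    (hcb : near c b) : ∃ l' ∈ walks (n + 2) a, l'.toFinset = insert b l.toFinset := by
  induction n generalizing a l with
  | zero =>
    have : l = [a] := by simpa [walks] using hl
    subst this
    have : c = a := by simpa using hc
    subst this
    refine ⟨c :: b :: [c], cons_mem_walks hcb (cons_mem_walks (near_symm hcb) hl), ?_⟩
    ext z; simp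
  | succ n ih =>
    by_cases hca : c = a
    · subst hca
      refine ⟨c :: b :: l, cons_mem_walks hcb (cons_mem_walks (near_symm hcb) hl), ?_⟩
      ext z
      simp only [List.toFinset_cons, Finset.mem_insert, List.mem_toFinset]
      constructor
      · rintro (rfl | h)
        · exact Or.inr hc
        · exact h
      · exact Or.inr
    · rw [walks] at hl
      obtain ⟨a', ha', hb⟩ := Finset.mem_biUnion.1 hl
      obtain ⟨l0, hl0, rfl⟩ := Finset.mem_image.1 hb
      have hc0 : c ∈ l0 := by simpa [hca] using hc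
      obtain ⟨l1, hl1, h1⟩ := ih hl0 hc0
      refine ⟨a :: l1, cons_mem_walks (mem_nbrE.1 ha') hl1, ?_⟩
      simp only [List.toFinset_cons, h1]
      exact Finset.insert_comm _ _ _

/-- Star-connected sets of `n + 1` edges containing `a` are among these. -/
noncomputable def animals (n : ℕ) (a : E d) : Finset (Finset (E d)) :=
  ((walks (2 * n) a).image List.toFinset).filter fun Q => Q.card = n + 1

lemma card_animals (n : ℕ) (a : E d) : (animals n a).card ≤ (Dg d ^ 2) ^ n := by
  rw [← pow_mul]
  exact (Finset.card_filter_le _ _).trans (Finset.card_image_le.trans (card_walks _ _))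

lemma card_of_mem_animals {n : ℕ} {a : E d} {Q : Finset (E d)} (h : Q ∈ animals n a) :
    Q.card = n + 1 := (Finset.mem_filter.1 h).2

lemma exists_animal {P : Set (E d)} (hP : StarConn P) {a : E d} (ha : a ∈ P) (n : ℕ)
    (hn : ((n + 1 : ℕ) : ℕ∞) ≤ P.encard) : ∃ Q ∈ animals n a, (Q : Set (E d)) ⊆ P := by
  induction n with
  | zero =>
    refine ⟨{a}, ?_, by simpa using ha⟩
    simp [animals, walks]
  | succ n ih =>
    obtain ⟨Q, hQ, hQP⟩ := ih (le_trans (by exact_mod_cast Nat.le_succ _) hn)
    have hcard := card_of_mem_animals hQ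
    obtain ⟨l, hl, rfl⟩ := Finset.mem_image.1 (Finset.mem_filter.1 hQ).1
    have hne : (l.toFinset : Set (E d)) ≠ P := by
      intro h
      rw [← h, Set.encard_coe_eq_coe_finsetCard, hcard] at hn
      have : n + 1 + 1 ≤ n + 1 := by exact_mod_cast hn
      omega
    have : ¬ ∀ c ∈ (l.toFinset : Set (E d)), ∀ b ∈ P, near c b → b ∈ (l.toFinset : Set (E d)) :=
      fun h => hne (hP _ hQP h ⟨a, by simpa using head_mem_walks hl⟩)
    push Not at this
    obtain ⟨c, hc, b, hb, hcb, hbn⟩ := this
    obtain ⟨l', hl', h'⟩ := splice hl (by simpa using hc) hcb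
    refine ⟨l'.toFinset, Finset.mem_filter.2 ⟨Finset.mem_image.2 ⟨l', hl', rfl⟩, ?_⟩, ?_⟩
    · rw [h', Finset.card_insert_of_notMem (by simpa using hbn), hcard]
    · rw [h', Finset.coe_insert]
      exact Set.insert_subset hb hQP

/-- A finite family containing all cutsets with `n + 1` edges around `x`. -/
noncomputable def cuts (i0 : Fin d) (x : V d) (n : ℕ) : Finset (Finset (E d)) :=
  (Finset.range ((n + 1) ^ 2)).biUnion fun t => animals n (Function.update x i0 (x i0 + t), i0)

/-- The growth constant for the number of cutsets. -/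
def Ac (d : ℕ) : ℕ := 4 * Dg d ^ 2

lemma one_le_Dg (hd : 1 ≤ d) : 1 ≤ Dg d := Nat.mul_pos (by positivity) hd

lemma card_cuts (i0 : Fin d) (x : V d) (n : ℕ) : (cuts i0 x n).card ≤ Ac d ^ (n + 1) := by
  have hd : 1 ≤ d := i0.pos
  refine Finset.card_biUnion_le.trans ?_
  calc _ ≤ ∑ _t ∈ Finset.range ((n + 1) ^ 2), (Dg d ^ 2) ^ n :=
        Finset.sum_le_sum fun t _ => card_animals _ _
    _ = (n + 1) ^ 2 * (Dg d ^ 2) ^ n := by simp
    _ ≤ (2 ^ (n + 1)) ^ 2 * (Dg d ^ 2) ^ (n + 1) := by
        refine Nat.mul_le_mul (Nat.pow_le_pow_left (Nat.lt_two_pow_self).le 2) ?_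
        exact Nat.pow_le_pow_right (Nat.one_le_pow _ _ (one_le_Dg hd)) (Nat.le_succ n)
    _ = Ac d ^ (n + 1) := by
        rw [Ac, mul_pow, ← pow_mul, mul_comm (n + 1) 2, pow_mul]; norm_num

lemma card_animals_le (a : E d) (n : ℕ) : (animals n a).card ≤ Ac d ^ (n + 1) := by
  have hd : 1 ≤ d := a.2.pos
  have h1 : 1 ≤ Dg d ^ 2 := Nat.one_le_pow _ _ (one_le_Dg hd)
  refine (card_animals n a).trans ?_
  calc (Dg d ^ 2) ^ n ≤ (Dg d ^ 2) ^ (n + 1) := Nat.pow_le_pow_right h1 (Nat.le_succ n)
    _ ≤ _ := Nat.pow_le_pow_left (by unfold Ac; omega) _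

lemma card_of_mem_cuts {i0 : Fin d} {x : V d} {n : ℕ} {Q : Finset (E d)} (h : Q ∈ cuts i0 x n) :
    Q.card = n + 1 := by
  obtain ⟨t, _, ht⟩ := Finset.mem_biUnion.1 h
  exact card_of_mem_animals ht

/-- Every finite connected set containing `x` has a cutset in its boundary. -/
lemma exists_cut (hd : 3 ≤ d) (i0 : Fin d) {K : Set (V d)} (hK : K.Finite) (hc : Conn K) {x : V d}
    (hx : x ∈ K) : ∃ n, ∃ Q ∈ cuts i0 x n, (Q : Set (E d)) ⊆ bd K ∧ K.ncard ^ 2 ≤ (n + 1) ^ 3 ∧
      2 * d ≤ n + 1 := by
  obtain ⟨L, hKL, hL, h1, h2, h3⟩ := exists_fill (by omega) hK hc hx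
  have hm := two_mul_le_ncard_bd hL (hKL hx)
  have hiso := isoperimetric hd hL
  obtain ⟨n, hn⟩ : ∃ n, (bd L).ncard = n + 1 := ⟨(bd L).ncard - 1, by omega⟩
  obtain ⟨t, ht, hta⟩ := exit_up hL (hKL hx) i0
  obtain ⟨Q, hQ, hQL⟩ := exists_animal (starConn_bd h1 h2) hta n (by
    rw [← hn, (finite_bd hL).cast_ncard_eq])
  rw [hn] at hiso hm
  refine ⟨n, Q, Finset.mem_biUnion.2 ⟨t, Finset.mem_range.2 ?_, hQ⟩, hQL.trans h3, ?_, hm⟩
  · refine ht.trans_le ?_
    refine (Nat.pow_le_pow_iff_left (n := 2) (by norm_num)).1 (hiso.trans ?_)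
    rw [← pow_mul]
    exact Nat.pow_le_pow_right (by omega) (by norm_num)
  · exact (Nat.pow_le_pow_left (Set.ncard_le_ncard hKL hL) 2).trans hiso

/-- Two different infinite clusters are separated by an infinite star-connected closed set. -/
lemma closed_animals_of_two (hd : 2 ≤ d) {O : Set (E d)} {x y : V d} (hx : (comp O x).Infinite)
    (hy : (comp O y).Infinite) (hxy : y ∉ comp O x) :
    ∃ a : E d, ∀ n, ∃ Q ∈ animals n a, Disjoint (Q : Set (E d)) O := by
  set D := comp (ins (comp O x)ᶜ) y with hD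
  have h1 : Conn D := conn_comp _ _
  have h2 : Conn Dᶜ := conn_compl_comp (conn_comp O x) (mem_comp_self O x) hxy
  have hDx : D ⊆ (comp O x)ᶜ := comp_ins_subset hxy
  have hyD : comp O y ⊆ D := by
    refine subset_comp_of_conn (conn_comp O y) ?_ (mem_comp_self O y) (mem_comp_self _ y)
    intro z hz hz'
    exact hxy (comp_trans hz' (comp_symm hz))
  have hinf : (bd D).Infinite := by
    intro hfin
    rcases finite_or_compl_finite hd hfin with h | h
    · exact hy (h.subset hyD)
    · exact hx (h.subset (subset_compl_comm.1 hDx))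
  obtain ⟨a, ha⟩ := hinf.nonempty
  refine ⟨a, fun n => ?_⟩
  obtain ⟨Q, hQ, hQD⟩ := exists_animal (starConn_bd h1 h2) ha n (by
    rw [hinf.encard_eq]; exact le_top)
  exact ⟨Q, hQ, (disjoint_bd_comp O x).mono_left (hQD.trans (bd_comp_compl_subset hxy))⟩

/-- A connected set containing two points far apart is large. -/
lemma le_ncard_of_conn {K : Set (V d)} (hK : K.Finite) (hc : Conn K) {x y : V d} (hx : x ∈ K)
    (hy : y ∈ K) (k : Fin d) {R : ℕ} (hR : x k + R ≤ y k) : R ≤ K.ncard := by
  have h : ∀ t : ℤ, x k ≤ t → t < y k → ∃ z ∈ K, z k = t := by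
    intro t h1 h2
    by_contra hcon
    push Not at hcon
    have := hc {z | z k ≤ t} (by
      rw [Set.disjoint_left]
      intro a ha hb
      apply ha
      have := hcon _ hb.1
      simp only [mem_ofPred_eq, Pi.add_apply, ee_apply]
      split_ifs <;> omega) x hx y hy
    simp only [mem_ofPred_eq] at this
    omega
  have h1 : (Finset.Ico (x k) (x k + R) : Set ℤ) ⊆ (fun z : V d => z k) '' K := by
    intro t ht
    simp only [Finset.coe_Ico, mem_Ico] at ht
    obtain ⟨z, hz, hz'⟩ := h t ht.1 (by omega)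
    exact ⟨z, hz, hz'⟩
  have h2 := Set.ncard_le_ncard h1 (hK.image _)
  rw [Set.ncard_coe_finset] at h2
  simp only [Int.card_Ico, add_sub_cancel_left, Int.toNat_natCast] at h2
  exact h2.trans (Set.ncard_image_le hK)

end Pool.Agent.P.MP_b4265e_pr
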