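import Mathlib

/-!
A decaying Green function on a bounded-degree graph with an anchored isoperimetric inequality.
-/

namespace Pool.Agent.P.MP_b4265e_pr

open Finset

variable {W : Type*} [DecidableEq W] (nb : W → Finset W)

def lap (u : W → ℝ) (x : W) : ℝ := ∑ y ∈ nb x, (u y - u x)

def reach (o : W) : Set W := {y | Relation.ReflTransGen (fun a b => b ∈ nb a) o y}

/-- Oriented boundary edges of a finite set. -/
def bp (K : Finset W) : Finset (Σ _ : W, W) := K.sigma fun x => nb x \ K

variable {nb}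

omit [DecidableEq W] in
lemma max_principle (A : Finset W) (hA : ∀ x ∈ A, (reach nb x).Infinite) (u : W → ℝ)
    (h0 : ∀ x, x ∉ A → u x ≤ 0) (h1 : ∀ x ∈ A, 0 ≤ lap nb u x) : ∀ x, u x ≤ 0 := by
  by_contra hcon
  push Not at hcon
  obtain ⟨x0, hx0⟩ := hcon
  have hx0A : x0 ∈ A := by
    by_contra h; exact absurd (h0 x0 h) (not_le.2 hx0)
  obtain ⟨z, hzA, hz⟩ := A.exists_max_image u ⟨x0, hx0A⟩
  have hzpos : 0 < u z := hx0.trans_le (hz x0 hx0A)
  have hle : ∀ y, u y ≤ u z := by
    intro y
    by_cases hy : y ∈ A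
    · exact hz y hy
    · exact (h0 y hy).trans hzpos.le
  have hmemA : ∀ y, u y = u z → y ∈ A := by
    intro y hy
    by_contra h
    have := h0 y h
    linarith
  have key : ∀ y ∈ reach nb z, u y = u z := by
    intro y hy
    induction hy with
    | refl => rfl
    | @tail b c _ hbc ih =>
      have hb := h1 b (hmemA b ih)
      have hnp : ∀ y ∈ nb b, u y - u b ≤ 0 := fun y _ => by rw [ih]; linarith [hle y]
      have hsum : ∑ y ∈ nb b, (u y - u b) = 0 := le_antisymm (sum_nonpos hnp) hb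
      have := (sum_eq_zero_iff_of_nonpos hnp).1 hsum c hbc
      linarith
  exact hA z hzA (A.finite_toSet.subset fun y hy => hmemA y (key y hy))

lemma exists_killed (A : Finset W) (hA : ∀ x ∈ A, (reach nb x).Infinite) (f : W → ℝ) :
    ∃ g : W → ℝ, (∀ x, x ∉ A → g x = 0) ∧ ∀ x ∈ A, lap nb g x = f x := by
  let ext : (A → ℝ) →ₗ[ℝ] (W → ℝ) :=
    { toFun := fun h x => if hx : x ∈ A then h ⟨x, hx⟩ else 0
      map_add' := by
        intro h h'; funext x; by_cases hx : x ∈ A <;> simp [hx]
      map_smul' := by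
        intro c h; funext x; by_cases hx : x ∈ A <;> simp [hx] }
  let L : (W → ℝ) →ₗ[ℝ] (A → ℝ) :=
    { toFun := fun u x => lap nb u x
      map_add' := by
        intro u v; funext x
        simp only [lap, Pi.add_apply, ← sum_add_distrib]
        exact sum_congr rfl fun y _ => by ring
      map_smul' := by
        intro c u; funext x
        simp only [lap, Pi.smul_apply, smul_eq_mul, RingHom.id_apply, mul_sum]
        exact sum_congr rfl fun y _ => by ring }
  have hext0 : ∀ h x, x ∉ A → ext h x = 0 := fun h x hx => by simp [ext, hx]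
  have hinj : Function.Injective (L ∘ₗ ext) := by
    rw [injective_iff_map_eq_zero]
    intro h hh
    have e1 : ∀ x ∈ A, lap nb (ext h) x = 0 := fun x hx => congrFun hh ⟨x, hx⟩
    have m1 := max_principle A hA (ext h) (fun x hx => (hext0 h x hx).le)
      (fun x hx => (e1 x hx).ge)
    have m2 := max_principle A hA (fun x => - ext h x) (fun x hx => by simp [hext0 h x hx])
      (fun x hx => by
        have := e1 x hx
        simp only [lap] at this ⊢
        have e : ∑ y ∈ nb x, (- ext h y - - ext h x) = - ∑ y ∈ nb x, (ext h y - ext h x) := by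
          rw [← sum_neg_distrib]; exact sum_congr rfl fun y _ => by ring
        rw [e, this]; simp)
    funext x
    have a1 := m1 x
    have a2 := m2 x
    have : ext h x = h x := by simp [ext]
    simp only [Pi.zero_apply]
    linarith
  obtain ⟨h, hh⟩ := LinearMap.injective_iff_surjective.1 hinj (fun x => f x)
  exact ⟨ext h, hext0 h, fun x hx => congrFun hh ⟨x, hx⟩⟩

lemma flux (hsym : ∀ x y, y ∈ nb x → x ∈ nb y) (K : Finset W) (g : W → ℝ) :
    ∑ a ∈ bp nb K, (g a.1 - g a.2) = - ∑ x ∈ K, lap nb g x := by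
  have h0 : ∑ x ∈ K, ∑ y ∈ K.filter (· ∈ nb x), (g y - g x) = 0 := by
    have e : ∑ x ∈ K, ∑ y ∈ K.filter (· ∈ nb x), (g y - g x) =
        ∑ y ∈ K, ∑ x ∈ K.filter (· ∈ nb y), (g y - g x) := by
      refine sum_comm' ?_
      intro x y
      simp only [mem_filter]
      constructor
      · rintro ⟨h1, h2, h3⟩; exact ⟨⟨h1, hsym _ _ h3⟩, h2⟩
      · rintro ⟨⟨h1, h3⟩, h2⟩; exact ⟨h1, h2, hsym _ _ h3⟩
    have e2 : ∑ y ∈ K, ∑ x ∈ K.filter (· ∈ nb y), (g y - g x) =
        - ∑ x ∈ K, ∑ y ∈ K.filter (· ∈ nb x), (g y - g x) := by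
      rw [← sum_neg_distrib]
      refine sum_congr rfl fun y _ => ?_
      rw [← sum_neg_distrib]
      exact sum_congr rfl fun x _ => by ring
    linarith
  have h1 : ∀ x, lap nb g x = ∑ y ∈ K.filter (· ∈ nb x), (g y - g x) +
      ∑ y ∈ nb x \ K, (g y - g x) := by
    intro x
    rw [lap, ← sum_inter_add_sum_sdiff (nb x) K]
    congr 2
    ext y; simp [and_comm]
  simp only [h1, sum_add_distrib, h0, zero_add]
  rw [bp, sum_sigma, ← sum_neg_distrib]
  refine sum_congr rfl fun x _ => ?_
  rw [← sum_neg_distrib]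
  exact sum_congr rfl fun y _ => by ring

lemma level_step_ineq {a b κ D M t' : ℝ} (ha : 1 ≤ a) (hb : 0 < b) (hD : 1 ≤ D) (hM : 1 ≤ M)
    (hκ : 0 < κ) (hab : b ^ 3 = a ^ 3 + κ / (2 * D)) (hκD : κ ≤ D * a ^ 3) (hiso : a ^ 2 ≤ M * κ)
    (ht : t' * b ≤ 24 * D * M ^ 2) : (t' + 2 / κ) * a ≤ 24 * D * M ^ 2 := by
  set C := 24 * D * M ^ 2 with hC
  have hC0 : 0 < C := by positivity
  set h := κ / (2 * D) with hh
  have hh0 : 0 < h := by positivity
  have hκh : κ = 2 * D * h := by rw [hh]; field_simp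
  have hh1 : h ≤ a ^ 3 / 2 := by
    rw [hh, div_le_iff₀ (by positivity)]; nlinarith
  have ha0 : 0 < a := by linarith
  have h1 : a ≤ b := by
    by_contra hn
    push Not at hn
    have : b ^ 3 < a ^ 3 := pow_lt_pow_left₀ hn hb.le (by norm_num)
    linarith
  have h2 : b ≤ 6 / 5 * a := by
    by_contra hn
    push Not at hn
    have : (6 / 5 * a) ^ 3 < b ^ 3 := pow_lt_pow_left₀ hn (by positivity) (by norm_num)
    have e : (6 / 5 * a) ^ 3 = 216 / 125 * a ^ 3 := by ring
    have : 0 < a ^ 3 := by positivity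
    linarith
  have h3 : h = (b - a) * (a ^ 2 + a * b + b ^ 2) := by linarith [hab]
  have h4 : a ^ 2 + a * b + b ^ 2 ≤ 4 * a ^ 2 := by nlinarith
  have h5 : h ≤ (b - a) * (4 * a ^ 2) := by
    rw [h3]; exact mul_le_mul_of_nonneg_left h4 (by linarith)
  have h6 : a ^ 4 ≤ M ^ 2 * κ ^ 2 := by
    calc a ^ 4 = (a ^ 2) ^ 2 := by ring
      _ ≤ (M * κ) ^ 2 := pow_le_pow_left₀ (by positivity) hiso 2
      _ = _ := by ring
  have h7 : t' ≤ C / b := by rw [le_div_iff₀ hb]; exact ht
  have h8 : 2 / κ * (a * b) ≤ C * (b - a) := by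
    rw [div_mul_eq_mul_div, div_le_iff₀ hκ]
    have e1 : 2 * (a * b) * (4 * a ^ 2) ≤ 12 * a ^ 4 := by
      have : a * b ≤ a * (6 / 5 * a) := mul_le_mul_of_nonneg_left h2 ha0.le
      have h' : 0 < a ^ 2 := by positivity
      nlinarith
    have e2 : 12 * a ^ 4 ≤ C * h * κ := by
      have : C * h * κ = 12 * (M ^ 2 * κ ^ 2) := by rw [hC, hh]; field_simp; ring
      rw [this]; linarith
    have e3 : C * h * κ ≤ C * ((b - a) * (4 * a ^ 2)) * κ :=
      mul_le_mul_of_nonneg_right (mul_le_mul_of_nonneg_left h5 hC0.le) hκ.le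
    have e4 : 2 * (a * b) * (4 * a ^ 2) ≤ C * (b - a) * κ * (4 * a ^ 2) := by nlinarith
    exact le_of_mul_le_mul_right e4 (by positivity)
  have h9 : (C / b + 2 / κ) * a ≤ C := by
    have : (C / b + 2 / κ) * a = (C * a + 2 / κ * (a * b)) / b := by field_simp
    rw [this, div_le_iff₀ hb]
    nlinarith
  calc (t' + 2 / κ) * a ≤ (C / b + 2 / κ) * a := by gcongr
    _ ≤ C := h9

lemma exists_cbrt {s : ℝ} (hs : 0 < s) : ∃ a : ℝ, 0 < a ∧ a ^ 3 = s :=
  ⟨s ^ ((3 : ℕ) : ℝ)⁻¹, by positivity, Real.rpow_inv_natCast_pow hs.le (by norm_num)⟩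

section killed
variable (hsym : ∀ x y, y ∈ nb x → x ∈ nb y) {A : Finset W} (hA : ∀ x ∈ A, (reach nb x).Infinite)
  {o : W} {g : W → ℝ} (hg0 : ∀ x, x ∉ A → g x = 0)
  (hg1 : ∀ x ∈ A, lap nb g x = if x = o then -1 else 0)
include hA hg0 hg1

lemma killed_nonneg : ∀ x, 0 ≤ g x := by
  have := max_principle A hA (fun x => - g x) (fun x hx => by simp [hg0 x hx]) (fun x hx => by
    have h := hg1 x hx
    simp only [lap] at h ⊢
    have e : ∑ y ∈ nb x, (- g y - - g x) = - ∑ y ∈ nb x, (g y - g x) := by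
      rw [← sum_neg_distrib]; exact sum_congr rfl fun y _ => by ring
    rw [e, h]; split_ifs <;> simp)
  intro x; linarith [this x]

include hsym in
lemma level_conn (t : ℝ) (ht : 0 ≤ t) : ∀ y ∈ A.filter (fun x => t < g x),
    o ∈ A.filter (fun x => t < g x) ∧ Relation.ReflTransGen (fun a b => b ∈ nb a ∧
      a ∈ A.filter (fun x => t < g x) ∧ b ∈ A.filter (fun x => t < g x)) o y := by
  classical
  set L := A.filter (fun x => t < g x) with hL
  set B := L.filter fun y => ¬ (o ∈ L ∧ Relation.ReflTransGen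
    (fun a b => b ∈ nb a ∧ a ∈ L ∧ b ∈ L) o y) with hB
  have hBA : B ⊆ A := (filter_subset _ _).trans (filter_subset _ _)
  have hmax := max_principle B (fun x hx => hA x (hBA hx)) (fun x => if x ∈ B then g x - t else 0)
    (fun x hx => by simp [hx]) (by
      intro x hx
      have hxL : x ∈ L := (mem_filter.1 hx).1
      have hxo : x ≠ o := by
        rintro rfl
        exact (mem_filter.1 hx).2 ⟨hxL, Relation.ReflTransGen.refl⟩
      have h := hg1 x (hBA hx)
      rw [if_neg hxo] at h
      rw [← h]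
      refine sum_le_sum fun y hy => ?_
      simp only [hx, if_true]
      by_cases hyB : y ∈ B
      · simp [hyB]
      · simp only [hyB, if_false]
        have : g y ≤ t := by
          by_contra hn
          push Not at hn
          have hyA : y ∈ A := by
            by_contra h'; rw [hg0 y h'] at hn; linarith
          have hyL : y ∈ L := mem_filter.2 ⟨hyA, hn⟩
          have h2 : o ∈ L ∧ Relation.ReflTransGen (fun a b => b ∈ nb a ∧ a ∈ L ∧ b ∈ L) o y := by
            by_contra h3; exact hyB (mem_filter.2 ⟨hyL, h3⟩)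
          exact (mem_filter.1 hx).2 ⟨h2.1, h2.2.tail ⟨hsym _ _ hy, hyL, hxL⟩⟩
        linarith)
  intro y hy
  by_contra hn
  have hyB : y ∈ B := mem_filter.2 ⟨hy, hn⟩
  have := hmax y
  simp only [hyB, if_true] at this
  linarith [(mem_filter.1 hy).2]

include hsym in
lemma level_bound {D M : ℕ} (hD1 : 1 ≤ D) (hM1 : 1 ≤ M) (hD : ∀ x, (nb x).card ≤ D)
    (hiso : ∀ K : Finset W, o ∈ K →
      (∀ y ∈ K, Relation.ReflTransGen (fun a b => b ∈ nb a ∧ a ∈ K ∧ b ∈ K) o y) →
      K.card ^ 2 ≤ (M * (bp nb K).card) ^ 3) :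
    ∀ t : ℝ, 0 ≤ t → t ^ 3 * (A.filter (fun x => t < g x)).card ≤ (24 * D * M ^ 2 : ℝ) ^ 3 := by
  have hD1' : (1 : ℝ) ≤ D := by exact_mod_cast hD1
  have hM1' : (1 : ℝ) ≤ M := by exact_mod_cast hM1
  suffices H : ∀ n : ℕ, ∀ t : ℝ, 0 ≤ t → A.card - (A.filter (fun x => t < g x)).card < n →
      t ^ 3 * (A.filter (fun x => t < g x)).card ≤ (24 * D * M ^ 2 : ℝ) ^ 3 from
    fun t ht => H _ t ht (Nat.lt_succ_self _)
  intro n
  induction n with
  | zero => intro t _ h; omega
  | succ n ih =>
    intro t ht hn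
    set L := A.filter (fun x => t < g x) with hL
    rcases L.eq_empty_or_nonempty with hE | ⟨y0, hy0⟩
    · rw [hE]; simp; positivity
    have hconn := level_conn hsym hA hg0 hg1 t ht
    have hoL : o ∈ L := (hconn y0 hy0).1
    have hi := hiso L hoL (fun y hy => (hconn y hy).2)
    have hs1 : 1 ≤ L.card := card_pos.2 ⟨y0, hy0⟩
    have hs1' : (1 : ℝ) ≤ L.card := by exact_mod_cast hs1
    set κ : ℝ := ((bp nb L).card : ℝ) with hκ
    have hi' : (L.card : ℝ) ^ 2 ≤ (M * κ) ^ 3 := by rw [hκ]; exact_mod_cast hi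
    obtain ⟨a, ha0, ha⟩ := exists_cbrt (s := L.card) (by linarith)
    have ha1 : 1 ≤ a := by
      by_contra hcon
      push Not at hcon
      have : a ^ 3 < 1 := pow_lt_one₀ ha0.le hcon (by norm_num)
      linarith
    have hκnn : 0 ≤ κ := by positivity
    have hiso' : a ^ 2 ≤ M * κ := by
      refine (pow_le_pow_iff_left₀ (by positivity) (by positivity) (n := 3) (by norm_num)).1 ?_
      calc (a ^ 2) ^ 3 = (a ^ 3) ^ 2 := by ring
        _ ≤ _ := by rw [ha]; exact hi'
    have hκ0 : 0 < κ := by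
      rcases hκnn.eq_or_lt with h | h
      · rw [← h] at hiso'; nlinarith
      · exact h
    suffices H : t * a ≤ 24 * D * M ^ 2 by
      rw [← ha, ← mul_pow]
      exact pow_le_pow_left₀ (by positivity) H 3
    rcases lt_or_ge t (2 / κ) with hlt | hge
    · have h1 : t * a ≤ 2 / κ * a := by gcongr
      have h2 : 2 / κ * a ≤ 2 * M := by
        rw [div_mul_eq_mul_div, div_le_iff₀ hκ0]; nlinarith
      have h3 : (2 * M : ℝ) ≤ 24 * D * M ^ 2 := by nlinarith
      linarith
    set t' := t - 2 / κ with ht'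
    have ht'0 : 0 ≤ t' := by linarith
    set L' := A.filter (fun x => t' < g x) with hL'
    have hκpos : 0 < 2 / κ := by positivity
    have hLL' : L ⊆ L' := by
      intro x hx
      exact mem_filter.2 ⟨(mem_filter.1 hx).1, by linarith [(mem_filter.1 hx).2]⟩
    have hflux : ∑ a ∈ bp nb L, (g a.1 - g a.2) = 1 := by
      rw [flux hsym, sum_congr rfl fun x hx => hg1 x (mem_filter.1 hx).1]
      rw [sum_ite_eq' L o (fun _ => (-1 : ℝ)), if_pos hoL]; simp
    have hnn : ∀ a ∈ bp nb L, 0 ≤ g a.1 - g a.2 := by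
      intro a ha
      obtain ⟨h1, h2⟩ := mem_sigma.1 ha
      have h3 := (mem_filter.1 h1).2
      have h4 : g a.2 ≤ t := by
        by_contra hcon
        push Not at hcon
        have : a.2 ∈ A := by
          by_contra h'; rw [hg0 _ h'] at hcon; linarith
        exact (mem_sdiff.1 h2).2 (mem_filter.2 ⟨this, hcon⟩)
      linarith
    set S := (bp nb L).filter fun a => g a.1 - g a.2 ≤ 2 / κ with hS
    set S' := (bp nb L).filter fun a => ¬ g a.1 - g a.2 ≤ 2 / κ with hS'
    have hSS' : (S.card : ℝ) + S'.card = κ := by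
      rw [hκ]; exact_mod_cast card_filter_add_card_filter_not _
    have hS'le : (S'.card : ℝ) * (2 / κ) ≤ 1 := by
      calc (S'.card : ℝ) * (2 / κ) = ∑ _a ∈ S', 2 / κ := by simp
        _ ≤ ∑ a ∈ S', (g a.1 - g a.2) :=
            sum_le_sum fun a ha => (not_le.1 (mem_filter.1 ha).2).le
        _ ≤ ∑ a ∈ bp nb L, (g a.1 - g a.2) :=
            sum_le_sum_of_subset_of_nonneg (filter_subset _ _) fun a ha _ => hnn a ha
        _ = 1 := hflux
    have hS'le2 : (S'.card : ℝ) ≤ κ / 2 := by
      rw [← mul_div_assoc, div_le_iff₀ hκ0] at hS'le; linarith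
    have hSle : S.card ≤ D * (L' \ L).card := by
      refine card_le_mul_card_image_of_maps_to (f := fun a : (Σ _ : W, W) => a.2) ?_ D ?_
      · intro a ha
        obtain ⟨h0, h5⟩ := mem_filter.1 ha
        obtain ⟨h1, h2⟩ := mem_sigma.1 h0
        have h3 := (mem_filter.1 h1).2
        have h6 : t' < g a.2 := by linarith
        refine mem_sdiff.2 ⟨mem_filter.2 ⟨?_, h6⟩, (mem_sdiff.1 h2).2⟩
        by_contra h'; rw [hg0 _ h'] at h6; linarith
      · intro y _
        refine le_trans ?_ (hD y)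
        refine card_le_card_of_injOn (fun a : (Σ _ : W, W) => a.1) ?_ ?_
        · intro a ha
          obtain ⟨h0, h5⟩ := mem_filter.1 (mem_coe.1 ha)
          obtain ⟨_, h2⟩ := mem_sigma.1 (mem_filter.1 h0).1
          rw [← h5]
          exact hsym _ _ (mem_sdiff.1 h2).1
        · rintro ⟨a1, a2⟩ ha ⟨b1, b2⟩ hb h
          have e1 := (mem_filter.1 (mem_coe.1 ha)).2
          have e2 := (mem_filter.1 (mem_coe.1 hb)).2
          simp only at h e1 e2
          rw [h, e1, e2]
    have hcard : (L' \ L).card + L.card = L'.card := card_sdiff_add_card_eq_card hLL'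
    have hgrow : (L.card : ℝ) + κ / (2 * D) ≤ L'.card := by
      have e1 : (S.card : ℝ) ≤ D * (L' \ L).card := by exact_mod_cast hSle
      have e2 : ((L' \ L).card : ℝ) + L.card = L'.card := by exact_mod_cast hcard
      have e3 : κ / (2 * D) ≤ (L' \ L).card := by
        rw [div_le_iff₀ (by positivity)]; nlinarith
      linarith
    have hlt : L.card < L'.card := by
      have : 0 < κ / (2 * D) := by positivity
      have : (L.card : ℝ) < L'.card := by linarith
      exact_mod_cast this
    have hL'A : L'.card ≤ A.card := card_filter_le _ _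
    have ih' := ih t' ht'0 (by rw [← hL']; omega)
    rw [← hL'] at ih'
    obtain ⟨b, hb0, hb⟩ := exists_cbrt (s := L.card + κ / (2 * D)) (by positivity)
    have hκD : κ ≤ D * a ^ 3 := by
      rw [ha, hκ]
      have : (bp nb L).card ≤ D * L.card := by
        rw [bp, card_sigma, mul_comm, ← smul_eq_mul]
        exact sum_le_card_nsmul _ _ _ fun x _ => (card_le_card sdiff_subset).trans (hD x)
      exact_mod_cast this
    have htb : t' * b ≤ 24 * D * M ^ 2 := by
      refine (pow_le_pow_iff_left₀ (by positivity) (by positivity) (n := 3) (by norm_num)).1 ?_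
      rw [mul_pow, hb]
      exact le_trans (mul_le_mul_of_nonneg_left hgrow (by positivity)) ih'
    have := level_step_ineq ha1 hb0 hD1' hM1' hκ0 (by rw [hb, ha]) hκD hiso' htb
    have e : t' + 2 / κ = t := by rw [ht']; ring
    rwa [e] at this

end killed

theorem exists_green (hsym : ∀ x y, y ∈ nb x → x ∈ nb y) {o : W} (hinf : (reach nb o).Infinite)
    {D M : ℕ} (hD1 : 1 ≤ D) (hM1 : 1 ≤ M) (hD : ∀ x, (nb x).card ≤ D)
    (hiso : ∀ K : Finset W, o ∈ K →
      (∀ y ∈ K, Relation.ReflTransGen (fun a b => b ∈ nb a ∧ a ∈ K ∧ b ∈ K) o y) →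
      K.card ^ 2 ≤ (M * (bp nb K).card) ^ 3) :
    ∃ g : W → ℝ, (∀ x ∈ reach nb o, x ≠ o → lap nb g x = 0) ∧ (∀ x ∈ reach nb o, 0 < g x) ∧
      ∀ t : ℝ, 0 < t → {x | t ≤ |g x|}.Finite := by
  classical
  set C : ℝ := 2 * (24 * D * M ^ 2) with hC
  have hC0 : 0 ≤ C := by positivity
  have hreach : ∀ x ∈ reach nb o, (reach nb x).Infinite := by
    intro x hx
    refine hinf.mono fun y hy => Relation.ReflTransGen.trans ?_ hy
    induction hx with
    | refl => exact Relation.ReflTransGen.refl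
    | tail _ hbc ih => exact Relation.ReflTransGen.head (hsym _ _ hbc) ih
  set Z : Set (W → ℝ) := Set.pi Set.univ (fun _ => Set.Icc 0 C) ∩
    ⋂ T : Finset W, ⋂ _ : T.Nonempty, ⋃ y ∈ T, {g | g y ^ 3 * T.card ≤ C ^ 3} with hZ
  have hZc : IsCompact Z := by
    refine (isCompact_univ_pi fun _ => isCompact_Icc).inter_right ?_
    refine isClosed_iInter fun T => isClosed_iInter fun _ => ?_
    refine T.finite_toSet.isClosed_biUnion fun y _ => isClosed_le (by fun_prop) (by fun_prop)
  obtain ⟨g, hgZ, hg⟩ := hZc.inter_iInter_nonempty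
    (fun x : reach nb o => {g : W → ℝ | lap nb g x = if (x : W) = o then -1 else 0})
    (fun x => isClosed_eq (by unfold lap; fun_prop) continuous_const) (by
      intro u
      set A : Finset W := u.image Subtype.val with hAdef
      have hA : ∀ x ∈ A, (reach nb x).Infinite := by
        intro x hx
        obtain ⟨y, _, rfl⟩ := mem_image.1 hx
        exact hreach _ y.2
      obtain ⟨g, hg0, hg1⟩ := exists_killed A hA (fun x => if x = o then -1 else 0)
      have hnn := killed_nonneg hA hg0 hg1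
      have hlev := level_bound hsym hA hg0 hg1 hD1 hM1 hD hiso
      have hT : ∀ T : Finset W, T.Nonempty → ∃ y ∈ T, g y ^ 3 * T.card ≤ C ^ 3 := by
        intro T hT
        obtain ⟨y, hy, hmin⟩ := T.exists_min_image g hT
        refine ⟨y, hy, ?_⟩
        rcases (hnn y).eq_or_lt with h0 | h0
        · rw [← h0]; simp; positivity
        · have h1 := hlev (g y / 2) (by positivity)
          have h2 : T ⊆ A.filter (fun x => g y / 2 < g x) := by
            intro x hx
            have : g y / 2 < g x := by linarith [hmin x hx]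
            refine mem_filter.2 ⟨?_, this⟩
            by_contra h'; rw [hg0 x h'] at this; linarith
          have h3 : (T.card : ℝ) ≤ (A.filter (fun x => g y / 2 < g x)).card := by
            exact_mod_cast card_le_card h2
          have h4 : (g y / 2) ^ 3 * T.card ≤ (24 * D * M ^ 2 : ℝ) ^ 3 :=
            le_trans (mul_le_mul_of_nonneg_left h3 (by positivity)) h1
          calc g y ^ 3 * T.card = 8 * ((g y / 2) ^ 3 * T.card) := by ring
            _ ≤ 8 * (24 * D * M ^ 2 : ℝ) ^ 3 := by linarith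
            _ = C ^ 3 := by rw [hC]; ring
      refine ⟨g, ⟨?_, ?_⟩, ?_⟩
      · intro x _
        refine ⟨hnn x, ?_⟩
        obtain ⟨y, hy, h⟩ := hT {x} (singleton_nonempty x)
        rw [mem_singleton.1 hy] at h
        simp only [card_singleton, Nat.cast_one, mul_one] at h
        exact (pow_le_pow_iff_left₀ (hnn x) hC0 (by norm_num)).1 h
      · simp only [Set.mem_iInter, Set.mem_iUnion]
        intro T hT'
        obtain ⟨y, hy, h⟩ := hT T hT'
        exact ⟨y, hy, h⟩
      · simp only [Set.mem_iInter]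
        intro x hx
        exact hg1 x (mem_image.2 ⟨x, hx, rfl⟩))
  have hg' : ∀ x ∈ reach nb o, lap nb g x = if x = o then -1 else 0 := by
    intro x hx
    exact Set.mem_iInter.1 hg ⟨x, hx⟩
  have hnn : ∀ x, 0 ≤ g x := fun x => (hgZ.1 x trivial).1
  have hzero : ∀ x ∈ reach nb o, g x = 0 → x ≠ o ∧ ∀ y ∈ nb x, g y = 0 := by
    intro x hx h0
    have h1 : ∀ y ∈ nb x, 0 ≤ g y - g x := fun y _ => by rw [h0]; linarith [hnn y]
    have h2 : 0 ≤ lap nb g x := sum_nonneg h1
    have h3 := hg' x hx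
    have hxo : x ≠ o := by
      intro h; rw [if_pos h] at h3; linarith
    rw [if_neg hxo] at h3
    refine ⟨hxo, fun y hy => ?_⟩
    have := (sum_eq_zero_iff_of_nonneg h1).1 h3 y hy
    linarith
  refine ⟨g, fun x hx hxo => by rw [hg' x hx, if_neg hxo], ?_, ?_⟩
  · intro x hx
    refine (hnn x).lt_of_ne fun h => ?_
    have : ∀ x ∈ reach nb o, g x ≠ 0 := by
      intro x hx
      induction hx with
      | refl => exact fun h => (hzero o Relation.ReflTransGen.refl h).1 rfl
      | @tail b c hb hbc ih =>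
        exact fun h => ih ((hzero c (hb.tail hbc) h).2 b (hsym _ _ hbc))
    exact this x hx h.symm
  · intro t ht
    by_contra hcon
    obtain ⟨n, hn⟩ := exists_nat_gt (C ^ 3 / t ^ 3)
    obtain ⟨T, hT, hTc⟩ := Set.Infinite.exists_subset_card_eq hcon (n + 1)
    have h1 := hgZ.2
    simp only [Set.mem_iInter, Set.mem_iUnion] at h1
    obtain ⟨y, hy, h⟩ := h1 T (card_pos.1 (by omega))
    have h2 : t ≤ g y := by
      have := hT hy
      simp only [Set.mem_ofPred_eq, abs_of_nonneg (hnn y)] at this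
      exact this
    have h3 : t ^ 3 * T.card ≤ C ^ 3 :=
      le_trans (mul_le_mul_of_nonneg_right (pow_le_pow_left₀ ht.le h2 3) (by positivity)) h
    rw [div_lt_iff₀ (by positivity)] at hn
    rw [hTc] at h3
    push_cast at h3
    have : 0 < t ^ 3 := by positivity
    nlinarith

end Pool.Agent.P.MP_b4265e_pr
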