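import Pool.Agent.P.MP_b4265e_pr.Cutsets
import Pool.Agent.P.MP_b4265e_pr.Green

/-!
Deterministic consequences of good configurations.
-/

namespace Pool.Agent.P.MP_b4265e_pr

open Finset

variable {d : ℕ}

open Classical in
noncomputable def nbO (O : Set (E d)) (x : V d) : Finset (V d) := (box x 1).filter (adj O x)

lemma ee_bounds (i k : Fin d) : 0 ≤ ee i k ∧ ee i k ≤ 1 := by
  rw [ee_apply]; split_ifs <;> simp

lemma adj_abs_le {O : Set (E d)} {x y : V d} (h : adj O x y) (k : Fin d) : |y k - x k| ≤ 1 := by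
  obtain ⟨i, h | h⟩ := h
  · have := ee_bounds i k
    rw [h.1, abs_le]; simp only [Pi.add_apply]; omega
  · have := ee_bounds i k
    rw [h.1, abs_le]; simp only [Pi.add_apply]; omega

lemma mem_nbO {O : Set (E d)} {x y : V d} : y ∈ nbO O x ↔ adj O x y := by
  classical
  rw [nbO, mem_filter, mem_box]
  exact ⟨fun h => h.2, fun h => ⟨by simpa using adj_abs_le h, h⟩⟩

lemma card_nbO (O : Set (E d)) (x : V d) : (nbO O x).card ≤ 3 ^ d := by
  classical
  exact (card_filter_le _ _).trans (card_box x 1).le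

lemma reach_nbO (O : Set (E d)) (x : V d) : reach (nbO O) x = comp O x := by
  simp only [reach, comp, mem_nbO]

lemma ee_inj {i j : Fin d} (h : ee i = ee j) : i = j := by
  by_contra hn
  have := congrFun h i
  rw [ee_self, ee_ne hn] at this
  omega

open Classical in
lemma card_open_le {O : Set (E d)} {K : Finset (V d)} {Q : Finset (E d)}
    (hQ : (Q : Set (E d)) ⊆ bd (K : Set (V d))) :
    (Q.filter (· ∈ O)).card ≤ (bp (nbO O) K).card := by
  refine card_le_card_of_injOn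
    (fun a : E d => if a.1 ∈ K then (⟨a.1, a.1 + ee a.2⟩ : Σ _ : V d, V d)
      else ⟨a.1 + ee a.2, a.1⟩) ?_ ?_
  · intro a ha
    obtain ⟨h1, h2⟩ := mem_filter.1 (mem_coe.1 ha)
    have h3 : ¬ (a.1 ∈ K ↔ a.1 + ee a.2 ∈ K) := hQ h1
    simp only [mem_coe, bp]
    split_ifs with h
    · exact mem_sigma.2 ⟨h, mem_sdiff.2 ⟨mem_nbO.2 ⟨a.2, Or.inl ⟨rfl, h2⟩⟩, by tauto⟩⟩
    · exact mem_sigma.2 ⟨by tauto, mem_sdiff.2 ⟨mem_nbO.2 ⟨a.2, Or.inr ⟨rfl, h2⟩⟩, h⟩⟩
  · rintro ⟨x, i⟩ _ ⟨y, j⟩ _ h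
    have bad : x = y + ee j → x + ee i = y → False := by
      intro h1 h2
      have e1 := congrFun h1 i
      have e2 := congrFun h2 i
      have := ee_bounds j i
      simp only [Pi.add_apply, ee_self] at e1 e2
      omega
    have bad' : x + ee i = y → x = y + ee j → False := fun h1 h2 => bad h2 h1
    simp only at h
    split_ifs at h with h1 h2 h2 <;> simp only [Sigma.mk.injEq, heq_eq_eq] at h
    · obtain ⟨rfl, h⟩ := h
      rw [ee_inj (add_left_cancel h)]
    · exact (bad h.1 h.2).elim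
    · exact (bad' h.1 h.2).elim
    · obtain ⟨h, rfl⟩ := h
      rw [ee_inj (add_left_cancel h)]

open Classical in
lemma green_of_good (hd : 3 ≤ d) (i0 : Fin d) {O : Set (E d)} {o : V d} (ho : (comp O o).Infinite)
    (hgood : ∀ᶠ n in Filter.atTop, ∀ Q ∈ cuts i0 o n, Q.card ≤ 2 * (Q.filter (· ∈ O)).card) :
    ∃ g : V d → ℝ, (∀ x ∈ comp O o, x ≠ o → lap (nbO O) g x = 0) ∧ (∀ x ∈ comp O o, 0 < g x) ∧
      ∀ t : ℝ, 0 < t → {x | t ≤ |g x|}.Finite := by
  obtain ⟨N, hN⟩ := Filter.eventually_atTop.1 hgood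
  rw [← reach_nbO] at ho ⊢
  refine exists_green (D := 3 ^ d) (M := N + 2) (fun x y h => mem_nbO.2 (adj_symm (mem_nbO.1 h)))
    ho (Nat.one_le_pow _ _ (by norm_num)) (by omega) (card_nbO O) ?_
  intro K hoK hK
  have hconn : Conn (K : Set (V d)) := by
    refine conn_of_reach (mem_coe.2 hoK) fun y hy => ?_
    have := hK y hy
    clear hy
    induction this with
    | refl => exact Relation.ReflTransGen.refl
    | tail _ hbc ih =>
      exact ih.tail ⟨adj_mono (Set.subset_univ _) (mem_nbO.1 hbc.1), hbc.2.1, hbc.2.2⟩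
  obtain ⟨n, Q, hQ, hQK, h1, _⟩ := exists_cut hd i0 K.finite_toSet hconn (mem_coe.2 hoK)
  rw [Set.ncard_coe_finset] at h1
  refine h1.trans (Nat.pow_le_pow_left ?_ 3)
  have hκ : 1 ≤ (bp (nbO O) K).card := by
    rw [Nat.one_le_iff_ne_zero, Ne, card_eq_zero]
    intro hE
    refine ho (K.finite_toSet.subset fun y hy => ?_)
    induction hy with
    | refl => exact hoK
    | @tail b c _ hbc ih =>
      by_contra hn
      have : (⟨b, c⟩ : Σ _ : V d, V d) ∈ bp (nbO O) K := mem_sigma.2 ⟨ih, mem_sdiff.2 ⟨hbc, hn⟩⟩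
      rw [hE] at this
      simp at this
  rcases le_or_gt N n with h | h
  · have h2 := hN n h Q hQ
    have h3 := card_open_le (O := O) hQK
    rw [card_of_mem_cuts hQ] at h2
    nlinarith
  · nlinarith

/-- The only open edge at `x` is the one going up in direction `i0`. -/
def dang (i0 : Fin d) (O : Set (E d)) (x : V d) : Prop :=
  (x, i0) ∈ O ∧ (∀ i, i ≠ i0 → (x, i) ∉ O) ∧ ∀ i, (x - ee i, i) ∉ O

lemma nbO_of_dang {i0 : Fin d} {O : Set (E d)} {x : V d} (h : dang i0 O x) :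
    nbO O x = {x + ee i0} := by
  ext y
  rw [mem_nbO, mem_singleton]
  constructor
  · rintro ⟨i, h1 | h1⟩
    · by_cases hi : i = i0
      · rw [h1.1, hi]
      · exact absurd h1.2 (h.2.1 i hi)
    · have : y = x - ee i := by rw [h1.1]; simp
      exact absurd (this ▸ h1.2) (h.2.2 i)
  · rintro rfl
    exact ⟨i0, Or.inl ⟨rfl, h.1⟩⟩

noncomputable def boxE (x : V d) (R : ℕ) : Finset (E d) := box x R ×ˢ univ

lemma mem_boxE {x : V d} {R : ℕ} {a : E d} : a ∈ boxE x R ↔ ∀ k, |a.1 k - x k| ≤ R := by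
  simp [boxE, mem_box]

lemma dang_inter {i0 : Fin d} {O : Set (E d)} {x : V d} {R : ℕ} (hR : 1 ≤ R) :
    dang i0 (O ∩ boxE x R) x ↔ dang i0 O x := by
  have h1 : ∀ i, (x, i) ∈ (boxE x R : Set (E d)) := fun i => mem_coe.2 (mem_boxE.2 (by simp))
  have h2 : ∀ i, (x - ee i, i) ∈ (boxE x R : Set (E d)) := fun i => mem_coe.2 (mem_boxE.2 (by
    intro k
    have := ee_bounds i k
    rw [abs_le]; simp only [Pi.sub_apply]; omega))
  simp only [dang, Set.mem_inter_iff, h1, h2, and_true]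

/-- The local version of being a dangling site of an infinite cluster. -/
def Psi (i0 : Fin d) (x : V d) (R : ℕ) (O : Set (E d)) : Prop :=
  dang i0 O x ∧ ∃ y ∈ comp O x, ∃ k, (R : ℤ) ≤ |y k - x k|

lemma psi_of_infinite {i0 : Fin d} {O : Set (E d)} {x : V d} {R : ℕ} (hR : 1 ≤ R)
    (h1 : dang i0 O x) (h2 : (comp O x).Infinite) : Psi i0 x R (O ∩ boxE x R) := by
  refine ⟨(dang_inter hR).2 h1, ?_⟩
  by_contra hcon
  push Not at hcon
  have key : ∀ y ∈ comp O x, y ∈ comp (O ∩ boxE x R) x := by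
    intro y hy
    induction hy with
    | refl => exact mem_comp_self _ _
    | @tail b c _ hbc ih =>
      have hb := hcon b ih
      have hc := adj_abs_le hbc
      refine comp_adj ih ?_
      obtain ⟨i, h | h⟩ := hbc
      · exact ⟨i, Or.inl ⟨h.1, h.2, mem_coe.2 (mem_boxE.2 fun k => (hb k).le)⟩⟩
      · refine ⟨i, Or.inr ⟨h.1, h.2, mem_coe.2 (mem_boxE.2 fun k => ?_)⟩⟩
        have e1 := abs_lt.1 (hb k)
        have e2 := abs_le.1 (hc k)
        rw [abs_le]; simp only; omega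
  refine h2 ((box x R).finite_toSet.subset fun y hy => ?_)
  exact mem_coe.2 (mem_box.2 fun k => (hcon y (key y hy) k).le)

lemma cut_of_finite (hd : 3 ≤ d) (i0 : Fin d) {O : Set (E d)} {x : V d} (h : (comp O x).Finite) :
    ∃ n, 2 * d ≤ n + 1 ∧ (comp O x).ncard ≤ (n + 1) ^ 2 ∧
      ∃ Q ∈ cuts i0 x n, Disjoint (Q : Set (E d)) O := by
  obtain ⟨n, Q, hQ, hQK, h1, h2⟩ := exists_cut hd i0 h (conn_comp O x) (mem_comp_self O x)
  refine ⟨n, h2, ?_, Q, hQ, (disjoint_bd_comp O x).mono_left hQK⟩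
  refine (Nat.pow_le_pow_iff_left (n := 2) (by norm_num)).1 (h1.trans ?_)
  rw [← pow_mul]
  exact Nat.pow_le_pow_right (by omega) (by norm_num)

lemma of_psi (hd : 3 ≤ d) {i0 : Fin d} {O : Set (E d)} {x : V d} {M : ℕ} (hM : 1 ≤ M)
    (h : Psi i0 x (M ^ 2) (O ∩ boxE x (M ^ 2))) :
    dang i0 O x ∧ ((comp O x).Infinite ∨
      ∃ n, M ≤ n + 1 ∧ ∃ Q ∈ cuts i0 x n, Disjoint (Q : Set (E d)) O) := by
  refine ⟨(dang_inter (Nat.one_le_pow _ _ hM)).1 h.1, ?_⟩
  by_cases hf : (comp O x).Finite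
  · right
    obtain ⟨n, _, h2, h3⟩ := cut_of_finite hd i0 hf
    refine ⟨n, ?_, h3⟩
    obtain ⟨y, hy, k, hk⟩ := h.2
    have hy' : y ∈ comp O x := comp_mono Set.inter_subset_left x hy
    have : M ^ 2 ≤ (comp O x).ncard := by
      rcases le_abs.1 hk with h' | h'
      · exact le_ncard_of_conn hf (conn_comp O x) (mem_comp_self O x) hy' k (by omega)
      · exact le_ncard_of_conn hf (conn_comp O x) hy' (mem_comp_self O x) k (by omega)
    exact (Nat.pow_le_pow_iff_left (n := 2) (by norm_num)).1 (this.trans h2)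
  · left; exact hf

end Pool.Agent.P.MP_b4265e_pr
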