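import Mathlib

/-!
Lattice geometry of the hypercubic lattice: edge boundaries, connectivity through cuts,
exactness of closed one-forms, star-connectivity of boundaries.
-/

namespace Pool.Agent.P.MP_b4265e_pr

open Set

abbrev V (d : ℕ) := Fin d → ℤ

/-- An edge of the lattice, coded by its lower endpoint and its direction. -/
abbrev E (d : ℕ) := V d × Fin d

variable {d : ℕ}

def ee (i : Fin d) : V d := Pi.single i 1

/-- Edge boundary of a set of sites. -/
def bd (K : Set (V d)) : Set (E d) := {a | ¬ (a.1 ∈ K ↔ a.1 + ee a.2 ∈ K)}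

/-- Edges with both endpoints in a set of sites. -/
def ins (K : Set (V d)) : Set (E d) := {a | a.1 ∈ K ∧ a.1 + ee a.2 ∈ K}

/-- Adjacency through an edge of `O`. -/
def adj (O : Set (E d)) (x y : V d) : Prop :=
  ∃ i, (y = x + ee i ∧ (x, i) ∈ O) ∨ (x = y + ee i ∧ (y, i) ∈ O)

/-- The cluster of `z` for the edge set `O`. -/
def comp (O : Set (E d)) (z : V d) : Set (V d) := {y | Relation.ReflTransGen (adj O) z y}

/-- Connectivity of a set of sites in the lattice, phrased through cuts. -/
def Conn (K : Set (V d)) : Prop :=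
  ∀ S : Set (V d), Disjoint (bd S) (ins K) → ∀ x ∈ K, ∀ y ∈ K, (x ∈ S ↔ y ∈ S)

lemma ee_apply (i j : Fin d) : ee i j = if j = i then 1 else 0 := by
  simp [ee, Pi.single_apply]

@[simp] lemma ee_self (i : Fin d) : ee i i = 1 := by simp [ee]

lemma ee_ne {i j : Fin d} (h : j ≠ i) : ee i j = 0 := by simp [ee_apply, h]

lemma adj_symm {O : Set (E d)} {x y : V d} (h : adj O x y) : adj O y x := by
  obtain ⟨i, h | h⟩ := h
  · exact ⟨i, Or.inr h⟩
  · exact ⟨i, Or.inl h⟩

lemma adj_mono {O O' : Set (E d)} (hO : O ⊆ O') {x y : V d} (h : adj O x y) : adj O' x y := by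
  obtain ⟨i, h | h⟩ := h
  · exact ⟨i, Or.inl ⟨h.1, hO h.2⟩⟩
  · exact ⟨i, Or.inr ⟨h.1, hO h.2⟩⟩

lemma mem_comp_self (O : Set (E d)) (z : V d) : z ∈ comp O z := Relation.ReflTransGen.refl

lemma comp_adj {O : Set (E d)} {z x y : V d} (hx : x ∈ comp O z) (h : adj O x y) :
    y ∈ comp O z := Relation.ReflTransGen.tail hx h

lemma comp_symm {O : Set (E d)} {x y : V d} (h : y ∈ comp O x) : x ∈ comp O y := by
  induction h with
  | refl => exact mem_comp_self _ _
  | tail _ hbc ih => exact Relation.ReflTransGen.head (adj_symm hbc) ih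

lemma comp_trans {O : Set (E d)} {x y z : V d} (h : y ∈ comp O x) (h' : z ∈ comp O y) :
    z ∈ comp O x := Relation.ReflTransGen.trans h h'

lemma comp_eq_of_mem {O : Set (E d)} {x y : V d} (h : y ∈ comp O x) : comp O y = comp O x := by
  ext z
  exact ⟨fun hz => comp_trans h hz, fun hz => comp_trans (comp_symm h) hz⟩

lemma comp_mono {O O' : Set (E d)} (hO : O ⊆ O') (z : V d) : comp O z ⊆ comp O' z :=
  fun _ h => by
    induction h with
    | refl => exact mem_comp_self _ _
    | tail _ hbc ih => exact comp_adj ih (adj_mono hO hbc)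

lemma dl {α : Type*} {s t : Set α} (h : Disjoint s t) (a : α) (h1 : a ∈ s) (h2 : a ∈ t) : False :=
  Set.disjoint_left.1 h h1 h2

lemma bd_compl (K : Set (V d)) : bd Kᶜ = bd K := by
  ext a; simp only [bd, mem_ofPred_eq, mem_compl_iff]; tauto

lemma disjoint_bd_ins (K : Set (V d)) : Disjoint (bd K) (ins K) := by
  rw [Set.disjoint_left]; intro a ha hb; exact ha ⟨fun _ => hb.2, fun _ => hb.1⟩

lemma disjoint_bd_comp (O : Set (E d)) (z : V d) : Disjoint (bd (comp O z)) O := by
  rw [Set.disjoint_left]
  intro a ha hO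
  apply ha
  constructor
  · intro h; exact comp_adj h ⟨a.2, Or.inl ⟨rfl, hO⟩⟩
  · intro h; exact comp_adj h ⟨a.2, Or.inr ⟨rfl, hO⟩⟩

/-- Membership in `S` is constant along a chain whose steps stay inside `K`. -/
lemma conn_of_reach {K : Set (V d)} {z : V d} (_hz : z ∈ K)
    (h : ∀ y ∈ K, Relation.ReflTransGen (fun a b => adj univ a b ∧ a ∈ K ∧ b ∈ K) z y) :
    Conn K := by
  intro S hS
  have key : ∀ y, Relation.ReflTransGen (fun a b => adj univ a b ∧ a ∈ K ∧ b ∈ K) z y →
      (z ∈ S ↔ y ∈ S) := by
    intro y hy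
    induction hy with
    | refl => rfl
    | @tail b c _ hbc ih =>
      rw [ih]
      obtain ⟨⟨i, h1 | h1⟩, hb, hc⟩ := hbc
      · by_contra hne
        refine dl hS (b, i) ?_ ⟨hb, h1.1 ▸ hc⟩
        show ¬ (b ∈ S ↔ b + ee i ∈ S)
        rw [← h1.1]; exact hne
      · by_contra hne
        refine dl hS (c, i) ?_ ⟨hc, h1.1 ▸ hb⟩
        show ¬ (c ∈ S ↔ c + ee i ∈ S)
        rw [← h1.1]; exact fun h => hne h.symm
  intro x hx y hy
  exact (key x (h x hx)).symm.trans (key y (h y hy))

lemma conn_comp (O : Set (E d)) (z : V d) : Conn (comp O z) := by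
  apply conn_of_reach (mem_comp_self O z)
  intro y hy
  induction hy with
  | refl => exact Relation.ReflTransGen.refl
  | @tail b c hb hbc ih =>
    exact Relation.ReflTransGen.tail ih ⟨adj_mono (subset_univ _) hbc, hb, comp_adj hb hbc⟩

lemma comp_ins_subset {B : Set (V d)} {z : V d} (hz : z ∈ B) : comp (ins B) z ⊆ B := by
  intro y hy
  induction hy with
  | refl => exact hz
  | @tail b c _ hbc _ =>
    obtain ⟨i, h1 | h1⟩ := hbc
    · rw [h1.1]; exact h1.2.2
    · exact h1.2.1

lemma subset_comp_of_conn {A B : Set (V d)} (hA : Conn A) (hAB : A ⊆ B) {z y : V d}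
    (hy : y ∈ A) (hz : y ∈ comp (ins B) z) : A ⊆ comp (ins B) z := by
  intro x hx
  refine (hA (comp (ins B) z) ?_ y hy x hx).1 hz
  refine (disjoint_bd_comp (ins B) z).mono_right ?_
  intro a ha; exact ⟨hAB ha.1, hAB ha.2⟩

/-- Moving one coordinate along a line on which all edges avoid the boundary of `S`. -/
lemma line_move {S : Set (V d)} (x : V d) (j : Fin d) (a b : ℤ) (hab : a ≤ b)
    (h : ∀ t, a ≤ t → t < b → (Function.update x j t, j) ∉ bd S) :
    (Function.update x j a ∈ S ↔ Function.update x j b ∈ S) := by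
  induction b, hab using Int.leInduction with
  | base => rfl
  | succ n hn ih =>
    rw [ih (fun t h1 h2 => h t h1 (by omega))]
    have := h n hn (by omega)
    simp only [bd, mem_ofPred_eq, not_not] at this
    rw [this]
    have : Function.update x j n + ee j = Function.update x j (n + 1) := by
      funext k
      by_cases hk : k = j
      · subst hk; simp
      · simp [hk, ee_ne hk]
    rw [this]

/-- A product of order-convex subsets of the integers is connected. -/
lemma conn_pi (I : Fin d → Set ℤ) (hI : ∀ k, (I k).OrdConnected) :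
    Conn {x : V d | ∀ k, x k ∈ I k} := by
  classical
  intro S hS x hx y hy
  have step : ∀ (z : V d), (∀ k, z k ∈ I k) → ∀ j, ∀ t ∈ I j,
      (z ∈ S ↔ Function.update z j t ∈ S) := by
    intro z hz j t ht
    have hmem : ∀ s ∈ I j, ∀ k, Function.update z j s k ∈ I k := by
      intro s hs k
      by_cases hk : k = j
      · subst hk; simpa using hs
      · simpa [hk] using hz k
    have gen : ∀ a b, a ∈ I j → b ∈ I j → a ≤ b →
        (Function.update z j a ∈ S ↔ Function.update z j b ∈ S) := by
      intro a b ha hb hab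
      apply line_move z j a b hab
      intro s h1 h2 hbd
      refine Set.disjoint_left.1 hS hbd ⟨hmem s ((hI j).out ha hb ⟨h1, h2.le⟩), ?_⟩
      have : Function.update z j s + ee j = Function.update z j (s + 1) := by
        funext k
        by_cases hk : k = j
        · subst hk; simp
        · simp [hk, ee_ne hk]
      show ∀ k, (Function.update z j s + ee j) k ∈ I k
      rw [this]
      exact hmem _ ((hI j).out ha hb ⟨by omega, by omega⟩)
    rcases le_total (z j) t with h | h
    · simpa using gen (z j) t (hz j) ht h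
    · simpa using (gen t (z j) ht (hz j) h).symm
  have main : ∀ s : Finset (Fin d), (x ∈ S ↔ s.piecewise y x ∈ S) := by
    intro s
    induction s using Finset.induction_on with
    | empty => simp
    | insert j s hj ih =>
      rw [ih, Finset.piecewise_insert]
      apply step _ _ j _ (hy j)
      intro k
      by_cases hk : k ∈ s
      · simpa [hk] using hy k
      · simpa [hk] using hx k
  simpa using main Finset.univ

lemma conn_univ : Conn (univ : Set (V d)) := by
  have := conn_pi (d := d) (fun _ => univ) (fun _ => ordConnected_univ)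
  simpa using this

/-- The box of radius `R` around `x`. -/
noncomputable def box (x : V d) (R : ℕ) : Finset (V d) :=
  Fintype.piFinset fun k => Finset.Icc (x k - R) (x k + R)

lemma mem_box {x y : V d} {R : ℕ} : y ∈ box x R ↔ ∀ k, |y k - x k| ≤ R := by
  simp only [box, Fintype.mem_piFinset, Finset.mem_Icc, abs_le]
  refine forall_congr' fun k => ?_
  omega

lemma card_box (x : V d) (R : ℕ) : (box x R).card = (2 * R + 1) ^ d := by
  simp only [box, Fintype.card_piFinset, Int.card_Icc]
  have : ∀ k, (x k + R + 1 - (x k - R)).toNat = 2 * R + 1 := by intro k; omega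
  simp [this]

lemma exists_box {K : Set (V d)} (hK : K.Finite) : ∃ R : ℕ, K ⊆ (box (0 : V d) R : Set (V d)) := by
  classical
  refine ⟨hK.toFinset.sup fun x => Finset.univ.sup fun k => (x k).natAbs, ?_⟩
  intro x hx
  rw [Finset.mem_coe, mem_box]
  intro k
  have h1 : (x k).natAbs ≤ Finset.univ.sup fun k => (x k).natAbs :=
    Finset.le_sup (f := fun k => (x k).natAbs) (Finset.mem_univ k)
  have h2 : (Finset.univ.sup fun k => (x k).natAbs) ≤
      hK.toFinset.sup fun x => Finset.univ.sup fun k => (x k).natAbs :=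
    Finset.le_sup (f := fun x : V d => Finset.univ.sup fun k => (x k).natAbs)
      (hK.mem_toFinset.2 hx)
  simp only [Pi.zero_apply, sub_zero]
  rw [← Int.natCast_natAbs]
  exact_mod_cast h1.trans h2

/-- The complement of a box is connected in dimension at least two. -/
lemma conn_compl_box (hd : 2 ≤ d) (R : ℕ) : Conn ((box (0 : V d) R : Set (V d))ᶜ) := by
  classical
  intro S hS
  set c : V d := fun _ => (R : ℤ) + 1 with hc
  have up : ∀ (k : Fin d) (x y : V d), (R : ℤ) < x k → (R : ℤ) < y k → (x ∈ S ↔ y ∈ S) := by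
    intro k x y hx hy
    refine conn_pi (fun j => if j = k then Ioi (R : ℤ) else univ) ?_ S (hS.mono_right ?_) x ?_ y ?_
    · intro j; split_ifs
      · exact ordConnected_Ioi
      · exact ordConnected_univ
    · intro a ha
      have h1 := ha.1 k
      have h2 := ha.2 k
      simp only [if_true, mem_Ioi] at h1 h2
      constructor
      · intro h
        have := mem_box.1 h k
        simp only [Pi.zero_apply, sub_zero, abs_le] at this; omega
      · intro h
        have := mem_box.1 h k
        simp only [Pi.zero_apply, sub_zero, abs_le] at this; omega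
    · intro j; by_cases hj : j = k
      · subst hj; simpa using hx
      · simp [hj]
    · intro j; by_cases hj : j = k
      · subst hj; simpa using hy
      · simp [hj]
  have down : ∀ (k : Fin d) (x y : V d), x k < -(R : ℤ) → y k < -(R : ℤ) → (x ∈ S ↔ y ∈ S) := by
    intro k x y hx hy
    refine conn_pi (fun j => if j = k then Iio (-(R : ℤ)) else univ) ?_ S (hS.mono_right ?_)
      x ?_ y ?_
    · intro j; split_ifs
      · exact ordConnected_Iio
      · exact ordConnected_univ
    · intro a ha
      have h1 := ha.1 k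
      have h2 := ha.2 k
      simp only [if_true, mem_Iio] at h1 h2
      constructor
      · intro h
        have := mem_box.1 h k
        simp only [Pi.zero_apply, sub_zero, abs_le] at this; omega
      · intro h
        have := mem_box.1 h k
        simp only [Pi.zero_apply, sub_zero, abs_le] at this; omega
    · intro j; by_cases hj : j = k
      · subst hj; simpa using hx
      · simp [hj]
    · intro j; by_cases hj : j = k
      · subst hj; simpa using hy
      · simp [hj]
  have key : ∀ x ∈ ((box (0 : V d) R : Set (V d))ᶜ), (x ∈ S ↔ c ∈ S) := by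
    intro x hx
    have : ∃ k, (R : ℤ) < |x k| := by
      by_contra hcon
      push Not at hcon
      exact hx (mem_box.2 (by simpa using hcon))
    obtain ⟨k, hk⟩ := this
    rcases lt_abs.1 hk with h | h
    · exact up k x c h (by simp [hc])
    · obtain ⟨j, hj⟩ : ∃ j : Fin d, j ≠ k := by
        have : Nontrivial (Fin d) := Fin.nontrivial_iff_two_le.2 hd
        exact exists_ne k
      have h1 := down k x (Function.update c k (x k)) (by omega) (by simp; omega)
      have h2 := up j (Function.update c k (x k)) c (by simp [hj, hc]) (by simp [hc])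
      exact h1.trans h2
  intro x hx y hy
  exact (key x hx).trans (key y hy).symm

/-- The complement of a component of the complement of a connected set is connected. -/
lemma conn_compl_comp {K : Set (V d)} (hK : Conn K) {k0 : V d} (hk0 : k0 ∈ K) {z : V d}
    (hz : z ∉ K) : Conn (comp (ins Kᶜ) z)ᶜ := by
  intro S hS
  set U := comp (ins Kᶜ) z with hU
  have hUK : U ⊆ Kᶜ := comp_ins_subset hz
  have hKS : ∀ y ∈ K, (y ∈ S ↔ k0 ∈ S) := by
    intro y hy
    refine hK S (hS.mono_right ?_) y hy k0 hk0
    intro a ha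
    exact ⟨fun h => hUK h ha.1, fun h => hUK h ha.2⟩
  have hbd := disjoint_bd_comp (ins Kᶜ) z
  have hall := conn_univ (d := d) {x | x ∈ U ∨ (x ∈ S ↔ k0 ∈ S)} (by
    rw [Set.disjoint_left]
    intro a ha _
    apply ha
    simp only [mem_ofPred_eq]
    by_cases h1 : a.1 ∈ U <;> by_cases h2 : a.1 + ee a.2 ∈ U
    · simp [h1, h2]
    · have : a.1 + ee a.2 ∈ K := by
        by_contra hn
        exact dl hbd a (fun h => h2 (h.1 h1)) ⟨hUK h1, hn⟩
      simp [h1, hKS _ this]
    · have : a.1 ∈ K := by
        by_contra hn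
        exact dl hbd a (fun h => h1 (h.2 h2)) ⟨hn, hUK h2⟩
      simp [h2, hKS _ this]
    · have : a.1 ∈ S ↔ a.1 + ee a.2 ∈ S := by
        by_contra hn
        exact dl hS a hn ⟨h1, h2⟩
      simp [h1, h2, this])
  have key : ∀ x ∈ Uᶜ, (x ∈ S ↔ k0 ∈ S) := by
    intro x hx
    have := (hall z trivial x trivial).1 (Or.inl (mem_comp_self _ _))
    rcases this with h | h
    · exact absurd h hx
    · exact h
  intro x hx y hy
  exact (key x hx).trans (key y hy).symm

lemma bd_comp_compl_subset {K : Set (V d)} {z : V d} (hz : z ∉ K) :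
    bd (comp (ins Kᶜ) z) ⊆ bd K := by
  intro a ha
  have hUK : comp (ins Kᶜ) z ⊆ Kᶜ := comp_ins_subset hz
  have hbd := Set.disjoint_left.1 (disjoint_bd_comp (ins Kᶜ) z) ha
  intro hiff
  apply hbd
  by_cases h1 : a.1 ∈ comp (ins Kᶜ) z
  · exact ⟨hUK h1, fun h => hUK h1 (hiff.2 h)⟩
  · have h2 : a.1 + ee a.2 ∈ comp (ins Kᶜ) z := by
      by_contra h2
      exact ha ⟨fun h => absurd h h1, fun h => absurd h h2⟩
    exact ⟨fun h => hUK h2 (hiff.1 h), hUK h2⟩

/-- Filling the holes of a finite connected set. -/
lemma exists_fill (hd : 2 ≤ d) {K : Set (V d)} (hK : K.Finite) (hc : Conn K) {k0 : V d}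
    (hk0 : k0 ∈ K) :
    ∃ L : Set (V d), K ⊆ L ∧ L.Finite ∧ Conn L ∧ Conn Lᶜ ∧ bd L ⊆ bd K := by
  obtain ⟨R, hR⟩ := exists_box hK
  have hinf : ((box (0 : V d) R : Set (V d))ᶜ).Infinite := by
    have : Nonempty (Fin d) := ⟨⟨0, by omega⟩⟩
    exact (Finset.finite_toSet _).infinite_compl
  obtain ⟨z, hz⟩ := hinf.nonempty
  have hzK : z ∉ K := fun h => hz (hR h)
  refine ⟨(comp (ins Kᶜ) z)ᶜ, ?_, ?_, conn_compl_comp hc hk0 hzK, ?_, ?_⟩
  · intro x hx h; exact comp_ins_subset (B := Kᶜ) hzK h hx
  · have := subset_comp_of_conn (conn_compl_box hd R) (compl_subset_compl.2 hR) hz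
      (mem_comp_self _ z)
    exact (Finset.finite_toSet (box (0 : V d) R)).subset (compl_subset_comm.1 this)
  · rw [compl_compl]; exact conn_comp _ _
  · rw [bd_compl]; exact bd_comp_compl_subset hzK

lemma finite_or_compl_finite (hd : 2 ≤ d) {A : Set (V d)} (hA : (bd A).Finite) :
    A.Finite ∨ Aᶜ.Finite := by
  obtain ⟨R, hR⟩ := exists_box (hA.image Prod.fst)
  have h := conn_compl_box hd R A (by
    rw [Set.disjoint_left]; intro a ha hb
    exact hb.1 (hR ⟨a, ha, rfl⟩))
  by_cases hex : ∃ x ∈ ((box (0 : V d) R : Set (V d))ᶜ), x ∈ A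
  · obtain ⟨x, hx, hxA⟩ := hex
    right
    refine (Finset.finite_toSet (box (0 : V d) R)).subset ?_
    intro y hy
    by_contra hn
    exact hy ((h x hx y hn).1 hxA)
  · left
    refine (Finset.finite_toSet (box (0 : V d) R)).subset ?_
    intro y hy
    by_contra hn
    exact hex ⟨y, hn, hy⟩

lemma finite_bd {K : Set (V d)} (hK : K.Finite) : (bd K).Finite := by
  have h1 : (K ×ˢ (univ : Set (Fin d))).Finite := hK.prod finite_univ
  have h2 := h1.image (fun a : E d => ((a.1 - ee a.2, a.2) : E d))
  refine (h1.union h2).subset ?_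
  intro a ha
  by_cases h : a.1 ∈ K
  · left; exact ⟨h, trivial⟩
  · right
    have : a.1 + ee a.2 ∈ K := by
      by_contra hn; exact ha ⟨fun h' => absurd h' h, fun h' => absurd h' hn⟩
    exact ⟨(a.1 + ee a.2, a.2), ⟨this, trivial⟩, by simp⟩

/-! Exactness of closed one-forms. -/

section forms
variable {A : Type*} [AddCommGroup A]

/-- A primitive of a function on the integers. -/
noncomputable def prim (f : ℤ → A) (t : ℤ) : A :=
  ∑ s ∈ Finset.Ico 0 t, f s - ∑ s ∈ Finset.Ico t 0, f s

lemma prim_succ (f : ℤ → A) (t : ℤ) : prim f (t + 1) - prim f t = f t := by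
  unfold prim
  rcases le_or_gt 0 t with h | h
  · have h1 : Finset.Ico (t + 1) 0 = ∅ := by
      apply Finset.Ico_eq_empty; omega
    have h2 : Finset.Ico t 0 = ∅ := by
      apply Finset.Ico_eq_empty; omega
    have h3 : Finset.Ico 0 (t + 1) = insert t (Finset.Ico 0 t) := by
      ext s; simp only [Finset.mem_Ico, Finset.mem_insert]; omega
    rw [h1, h2, h3, Finset.sum_insert (by simp)]
    simp
  · have h1 : Finset.Ico 0 (t + 1) = ∅ := by
      apply Finset.Ico_eq_empty; omega
    have h2 : Finset.Ico 0 t = ∅ := by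
      apply Finset.Ico_eq_empty; omega
    have h3 : Finset.Ico t 0 = insert t (Finset.Ico (t + 1) 0) := by
      ext s; simp only [Finset.mem_Ico, Finset.mem_insert]; omega
    rw [h1, h2, h3, Finset.sum_insert (by simp)]
    simp

lemma exact_of_closed (w : V d → Fin d → A)
    (hw : ∀ y i j, w y i + w (y + ee i) j = w y j + w (y + ee j) i) :
    ∃ F : V d → A, ∀ x i, F (x + ee i) - F x = w x i := by
  classical
  have main : ∀ s : Finset (Fin d), ∃ F : V d → A, ∀ x, ∀ i ∈ s, F (x + ee i) - F x = w x i := by
    intro s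
    induction s using Finset.induction_on with
    | empty => exact ⟨fun _ => 0, by simp⟩
    | insert k s hk ih =>
      obtain ⟨F, hF⟩ := ih
      set η : V d → A := fun x => w x k - (F (x + ee k) - F x) with hη
      have hinv : ∀ x, ∀ i ∈ s, η (x + ee i) = η x := by
        intro x i hi
        have h1 := hF x i hi
        have h2 := hF (x + ee k) i hi
        have h3 := hw x i k
        have h4 : x + ee i + ee k = x + ee k + ee i := by abel
        simp only [hη]
        rw [h4]
        have e1 : F (x + ee k + ee i) = w (x + ee k) i + F (x + ee k) := by rw [← h2]; abel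
        have e2 : F (x + ee i) = w x i + F x := by rw [← h1]; abel
        have e3 : w (x + ee i) k = w x k + w (x + ee k) i - w x i := by rw [← h3]; abel
        rw [e1, e2, e3]; abel
      refine ⟨fun x => F x + prim (fun t => η (Function.update x k t)) (x k), ?_⟩
      intro x i hi
      rcases Finset.mem_insert.1 hi with rfl | hi
      · have h1 : (fun t => η (Function.update (x + ee i) i t)) =
            fun t => η (Function.update x i t) := by
          funext t; congr 1; funext j
          by_cases hj : j = i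
          · subst hj; simp
          · simp [hj, ee_ne hj]
        have h2 := prim_succ (fun t => η (Function.update x i t)) (x i)
        simp only [Function.update_eq_self] at h2
        simp only [h1, Pi.add_apply, ee_self]
        have : prim (fun t => η (Function.update x i t)) (x i + 1) =
          η x + prim (fun t => η (Function.update x i t)) (x i) := by rw [← h2]; abel
        rw [this]; simp only [hη]; abel
      · have hik : k ≠ i := fun h => hk (h ▸ hi)
        have h1 : (fun t => η (Function.update (x + ee i) k t)) =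
            fun t => η (Function.update x k t) := by
          funext t
          rw [← hinv (Function.update x k t) i hi]
          congr 1; funext j
          by_cases hj : j = k
          · subst hj; simp [ee_ne hik]
          · simp [hj]
        simp only [h1, Pi.add_apply, ee_ne hik, add_zero]
        rw [← hF x i hi]; abel
  obtain ⟨F, hF⟩ := main Finset.univ
  exact ⟨F, fun x i => hF x i (Finset.mem_univ i)⟩

end forms

/-- Two edges are near when their lower endpoints are at sup-distance at most one. -/
def near (a b : E d) : Prop := ∀ k, |b.1 k - a.1 k| ≤ 1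

lemma near_symm {a b : E d} (h : near a b) : near b a := fun k => by
  rw [abs_sub_comm]; exact h k

/-- A set of edges is star-connected. -/
def StarConn (P : Set (E d)) : Prop :=
  ∀ T ⊆ P, (∀ a ∈ T, ∀ b ∈ P, near a b → b ∈ T) → T.Nonempty → T = P

lemma starConn_bd {K : Set (V d)} (h1 : Conn K) (h2 : Conn Kᶜ) : StarConn (bd K) := by
  classical
  intro T hT hcl hne
  set w : V d → Fin d → ZMod 2 := fun x i => if (x, i) ∈ T then 1 else 0 with hw
  set χ : V d → ZMod 2 := fun x => if x ∈ K then 1 else 0 with hχ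
  have hδ : ∀ x i, (if (x, i) ∈ bd K then (1 : ZMod 2) else 0) = χ (x + ee i) + χ x := by
    intro x i
    simp only [hχ, bd, mem_ofPred_eq]
    by_cases a1 : x ∈ K <;> by_cases a2 : x + ee i ∈ K <;> simp [a1, a2]
    decide
  have hnear : ∀ (y : V d) (i j : Fin d) (a b : E d), (a.1 = y ∨ a.1 = y + ee i ∨ a.1 = y + ee j) →
      (b.1 = y ∨ b.1 = y + ee i ∨ b.1 = y + ee j) → near a b := by
    intro y i j a b ha hb k
    have e1 : 0 ≤ ee i k ∧ ee i k ≤ 1 := by rw [ee_apply]; split_ifs <;> simp
    have e2 : 0 ≤ ee j k ∧ ee j k ≤ 1 := by rw [ee_apply]; split_ifs <;> simp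
    rw [abs_le]
    rcases ha with ha | ha | ha <;> rcases hb with hb | hb | hb <;> rw [ha, hb] <;>
      (try simp only [Pi.add_apply]) <;> omega
  have hclosed : ∀ y i j, w y i + w (y + ee i) j = w y j + w (y + ee j) i := by
    intro y i j
    by_cases hex : ∃ a ∈ T, (a.1 = y ∨ a.1 = y + ee i ∨ a.1 = y + ee j)
    · obtain ⟨a, haT, ha⟩ := hex
      have hb : ∀ b : E d, (b.1 = y ∨ b.1 = y + ee i ∨ b.1 = y + ee j) →
          w b.1 b.2 = χ (b.1 + ee b.2) + χ b.1 := by
        intro b hb
        rw [← hδ]
        have : (b.1, b.2) ∈ T ↔ (b.1, b.2) ∈ bd K :=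
          ⟨fun h => hT h, fun h => hcl a haT b h (hnear y i j a b ha hb)⟩
        simp only [hw, this]
      have e1 := hb (y, i) (Or.inl rfl)
      have e2 := hb (y + ee i, j) (Or.inr (Or.inl rfl))
      have e3 := hb (y, j) (Or.inl rfl)
      have e4 := hb (y + ee j, i) (Or.inr (Or.inr rfl))
      simp only at e1 e2 e3 e4
      have h4 : y + ee j + ee i = y + ee i + ee j := by abel
      rw [e1, e2, e3, e4, h4]
      generalize χ (y + ee i) = p
      generalize χ (y + ee j) = q
      generalize χ y = r
      generalize χ (y + ee i + ee j) = s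
      revert p q r s; decide
    · push Not at hex
      have z1 : (y, i) ∉ T := fun h => (hex _ h).1 rfl
      have z2 : (y + ee i, j) ∉ T := fun h => (hex _ h).2.1 rfl
      have z3 : (y, j) ∉ T := fun h => (hex _ h).1 rfl
      have z4 : (y + ee j, i) ∉ T := fun h => (hex _ h).2.2 rfl
      simp [hw, z1, z2, z3, z4]
  obtain ⟨F, hF⟩ := exact_of_closed w hclosed
  have const : ∀ L : Set (V d), Conn L → Disjoint (bd K) (ins L) →
      ∀ x ∈ L, ∀ y ∈ L, F x = F y := by
    intro L hL hdis x hx y hy
    have := hL {z | F z = F x} (by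
      rw [Set.disjoint_left]
      intro a ha hb
      have hn : (a.1, a.2) ∉ T := fun h => Set.disjoint_left.1 hdis (hT h) hb
      have h0 := hF a.1 a.2
      simp only [hw, hn, if_false] at h0
      apply ha
      simp only [mem_ofPred_eq]
      rw [sub_eq_zero.1 h0]) x hx y hy
    exact (this.1 rfl).symm
  have c1 := const K h1 (disjoint_bd_ins K)
  have c2 := const Kᶜ h2 (by rw [← bd_compl]; exact disjoint_bd_ins Kᶜ)
  have neg2 : ∀ p q : ZMod 2, p - q = q - p := by decide
  have same : ∀ a ∈ bd K, ∀ b ∈ bd K, w a.1 a.2 = w b.1 b.2 := by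
    intro a ha b hb
    rw [← hF, ← hF]
    simp only [bd, mem_ofPred_eq] at ha hb
    by_cases a1 : a.1 ∈ K <;> by_cases b1 : b.1 ∈ K
    · rw [c1 _ a1 _ b1, c2 (a.1 + ee a.2) (by tauto) (b.1 + ee b.2) (by tauto)]
    · rw [c1 _ a1 (b.1 + ee b.2) (by tauto), c2 (a.1 + ee a.2) (by tauto) _ b1, neg2]
    · rw [c2 _ a1 (b.1 + ee b.2) (by tauto), c1 (a.1 + ee a.2) (by tauto) _ b1, neg2]
    · rw [c2 _ a1 _ b1, c1 (a.1 + ee a.2) (by tauto) (b.1 + ee b.2) (by tauto)]
  obtain ⟨a, ha⟩ := hne
  refine Set.Subset.antisymm hT ?_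
  intro b hb
  have := same a (hT ha) b hb
  by_contra hn
  have ha' : (a.1, a.2) ∈ T := ha
  have hn' : (b.1, b.2) ∉ T := hn
  simp only [hw, ha', hn', if_true, if_false] at this
  exact absurd this (by decide)

end Pool.Agent.P.MP_b4265e_pr
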