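import Pool.Agent.P.MP_b4265e_pr.Det

/-!
Probability estimates: Peierls bounds, a second moment bound and Borel-Cantelli.
-/

namespace Pool.Agent.P.MP_b4265e_pr

open Finset MeasureTheory ProbabilityTheory Filter

section general
variable {Ω : Type*} [MeasurableSpace Ω] {μ : Measure Ω} [IsProbabilityMeasure μ]

lemma real_iUnion_le {s : ℕ → Set Ω} {f : ℕ → ℝ} (hf : Summable f) (h : ∀ n, μ.real (s n) ≤ f n) :
    μ.real (⋃ n, s n) ≤ ∑' n, f n := by
  have hnn : ∀ n, 0 ≤ f n := fun n => measureReal_nonneg.trans (h n)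
  refine ENNReal.toReal_le_of_le_ofReal (tsum_nonneg hnn) ?_
  rw [ENNReal.ofReal_tsum_of_nonneg hnn hf]
  refine (measure_iUnion_le s).trans (ENNReal.tsum_le_tsum fun n => ?_)
  rw [← ofReal_measureReal]
  exact ENNReal.ofReal_le_ofReal (h n)

lemma ae_eventually_of_summable {s : ℕ → Set Ω} {f : ℕ → ℝ} (hf : Summable f)
    (h : ∀ n, μ.real (s n) ≤ f n) : ∀ᵐ ω ∂μ, ∀ᶠ n in atTop, ω ∉ s n := by
  refine ae_eventually_notMem (ne_top_of_le_ne_top hf.tsum_ofReal_ne_top ?_)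
  refine ENNReal.tsum_le_tsum fun n => ?_
  rw [← ofReal_measureReal]
  exact ENNReal.ofReal_le_ofReal (h n)

open Classical in
lemma chebyshev_count {ι : Type*} (I : Finset ι) (Y : ι → Set Ω) (hY : ∀ i, MeasurableSet (Y i))
    (r : ι → ι → Prop) [DecidableRel r] {D : ℕ} (hD : ∀ i ∈ I, (I.filter (r i)).card ≤ D)
    (hind : ∀ i ∈ I, ∀ j ∈ I, ¬ r i j → μ.real (Y i ∩ Y j) = μ.real (Y i) * μ.real (Y j))
    {c : ℝ} (hc : 0 < c) (hY' : ∀ i ∈ I, c ≤ μ.real (Y i)) (hI : I.Nonempty) :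
    μ.real {ω | ((I.filter fun i => ω ∈ Y i).card : ℝ) ≤ c / 2 * I.card} ≤
      4 * D / (c ^ 2 * I.card) := by
  set Z : ι → Ω → ℝ := fun i ω => (Y i).indicator 1 ω - μ.real (Y i) with hZ
  have hI0 : (0 : ℝ) < I.card := by exact_mod_cast hI.card_pos
  have hprod : ∀ i j, (fun ω => Z i ω * Z j ω) = fun ω => (Y i ∩ Y j).indicator 1 ω -
      μ.real (Y j) * (Y i).indicator 1 ω - μ.real (Y i) * (Y j).indicator 1 ω +
      μ.real (Y i) * μ.real (Y j) := by
    intro i j; funext ω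
    simp only [hZ, Set.indicator, Set.mem_inter_iff, Pi.one_apply]
    by_cases h1 : ω ∈ Y i <;> by_cases h2 : ω ∈ Y j <;> simp [h1, h2] <;> ring
  have hI1 : ∀ s : Set Ω, MeasurableSet s → Integrable (s.indicator (1 : Ω → ℝ)) μ :=
    fun s hs => (integrable_const (1 : ℝ)).indicator hs
  have hint : ∀ i j, Integrable (fun ω => Z i ω * Z j ω) μ := by
    intro i j
    rw [hprod]
    exact (((hI1 _ ((hY i).inter (hY j))).sub ((hI1 _ (hY i)).const_mul _)).sub
      ((hI1 _ (hY j)).const_mul _)).add (integrable_const _)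
  have hcov : ∀ i j, ∫ ω, Z i ω * Z j ω ∂μ = μ.real (Y i ∩ Y j) - μ.real (Y i) * μ.real (Y j) := by
    intro i j
    rw [hprod, integral_add, integral_sub, integral_sub, integral_const_mul, integral_const_mul,
      integral_indicator_one ((hY i).inter (hY j)), integral_indicator_one (hY i),
      integral_indicator_one (hY j)]
    · simp; ring
    · exact hI1 _ ((hY i).inter (hY j))
    · exact (hI1 _ (hY i)).const_mul _
    · exact (hI1 _ ((hY i).inter (hY j))).sub ((hI1 _ (hY i)).const_mul _)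
    · exact (hI1 _ (hY j)).const_mul _
    · exact ((hI1 _ ((hY i).inter (hY j))).sub ((hI1 _ (hY i)).const_mul _)).sub
        ((hI1 _ (hY j)).const_mul _)
    · exact integrable_const _
  have hsq : (fun ω => (∑ i ∈ I, Z i ω) ^ 2) = fun ω => ∑ i ∈ I, ∑ j ∈ I, Z i ω * Z j ω := by
    funext ω; rw [sq, sum_mul_sum]
  have hint2 : Integrable (fun ω => (∑ i ∈ I, Z i ω) ^ 2) μ := by
    rw [hsq]
    exact integrable_finsetSum _ fun i _ => integrable_finsetSum _ fun j _ => hint i j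
  have hvar : ∫ ω, (∑ i ∈ I, Z i ω) ^ 2 ∂μ ≤ I.card * D := by
    rw [hsq, integral_finsetSum _ fun i _ => integrable_finsetSum _ fun j _ => hint i j]
    calc _ ≤ ∑ _i ∈ I, (D : ℝ) := by
          refine sum_le_sum fun i hi => ?_
          rw [integral_finsetSum _ fun j _ => hint i j]
          calc _ ≤ ∑ j ∈ I, if r i j then (1 : ℝ) else 0 := by
                refine sum_le_sum fun j hj => ?_
                rw [hcov]
                split_ifs with h
                · have h1 : μ.real (Y i ∩ Y j) ≤ 1 := measureReal_le_one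
                  have h2 : 0 ≤ μ.real (Y i) * μ.real (Y j) := by positivity
                  linarith
                · rw [hind i hi j hj h]; simp
            _ = (I.filter (r i)).card := by simp
            _ ≤ D := by exact_mod_cast hD i hi
      _ = _ := by simp
  have hmark := mul_meas_ge_le_integral_of_nonneg (μ := μ)
    (f := fun ω => (∑ i ∈ I, Z i ω) ^ 2) (ae_of_all _ fun ω => sq_nonneg _) hint2
    ((c / 2 * I.card) ^ 2)
  have hsub : {ω | ((I.filter fun i => ω ∈ Y i).card : ℝ) ≤ c / 2 * I.card} ⊆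
      {ω | (c / 2 * I.card) ^ 2 ≤ (∑ i ∈ I, Z i ω) ^ 2} := by
    intro ω hω
    simp only [Set.mem_ofPred_eq] at hω ⊢
    have e1 : ∑ i ∈ I, Z i ω = (I.filter fun i => ω ∈ Y i).card - ∑ i ∈ I, μ.real (Y i) := by
      simp [hZ, sum_sub_distrib, Set.indicator]
    have e2 : c * I.card ≤ ∑ i ∈ I, μ.real (Y i) := by
      calc c * I.card = ∑ _i ∈ I, c := by simp [mul_comm]
        _ ≤ _ := sum_le_sum hY'
    rw [← neg_sq (∑ i ∈ I, Z i ω)]
    exact pow_le_pow_left₀ (by positivity) (by linarith) 2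
  have h1 := measureReal_mono (μ := μ) hsub
  rw [le_div_iff₀ (by positivity)]
  have h2 : (c / 2 * I.card) ^ 2 * μ.real {ω | ((I.filter fun i => ω ∈ Y i).card : ℝ) ≤
      c / 2 * I.card} ≤ I.card * D :=
    le_trans (mul_le_mul_of_nonneg_left h1 (by positivity)) (hmark.trans hvar)
  refine le_of_mul_le_mul_left ?_ hI0
  nlinarith

end general

variable {d : ℕ} {Ω : Type*} [MeasurableSpace Ω] {μ : Measure Ω} [IsProbabilityMeasure μ]
  {X : E d → Ω → Prop} {p : ℝ}

/-- The set of open edges. -/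
def opn (X : E d → Ω → Prop) (ω : Ω) : Set (E d) := {a | X a ω}

/-- Independent edge variables, each open with probability `p`. -/
structure Bern (μ : Measure Ω) (X : E d → Ω → Prop) (p : ℝ) : Prop where
  meas : ∀ a, Measurable (X a)
  indep : iIndepFun X μ
  prob : ∀ a, μ.real {ω | X a ω} = p

namespace Bern
variable (h : Bern μ X p)
include h

open Classical in
lemma pattern (F : Finset (E d)) (σ : E d → Prop) :
    μ.real {ω | ∀ a ∈ F, (X a ω ↔ σ a)} = ∏ a ∈ F, if σ a then p else 1 - p := by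
  have h1 := h.indep.measure_inter_preimage_eq_mul F (sets := fun a => {P | P ↔ σ a})
    (fun _ _ => MeasurableSet.of_discrete)
  have e : {ω | ∀ a ∈ F, (X a ω ↔ σ a)} = ⋂ a ∈ F, X a ⁻¹' {P | P ↔ σ a} := by
    ext ω; simp
  rw [e, measureReal_def, h1, ENNReal.toReal_prod]
  refine prod_congr rfl fun a _ => ?_
  rw [← measureReal_def]
  split_ifs with hσ
  · rw [← h.prob a]; congr 1; ext ω; simp [hσ]
  · rw [← h.prob a, ← probReal_compl_eq_one_sub (measurableSet_setOfPred.2 (h.meas a))]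
    congr 1; ext ω; simp [hσ]

lemma closed (F : Finset (E d)) :
    μ.real {ω | Disjoint (F : Set (E d)) (opn X ω)} = (1 - p) ^ F.card := by
  have := h.pattern F (fun _ => False)
  simp only [iff_false, if_false, prod_const] at this
  rw [← this]; congr 1; ext ω
  simp [Set.disjoint_left, opn]

lemma q_nonneg (i0 : Fin d) : 0 ≤ 1 - p := by
  rw [← h.prob (0, i0)]; linarith [measureReal_le_one (μ := μ) (s := {ω | X (0, i0) ω})]

omit [IsProbabilityMeasure μ] in
lemma p_nonneg (i0 : Fin d) : 0 ≤ p := by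
  rw [← h.prob (0, i0)]; exact measureReal_nonneg

lemma closed_family (i0 : Fin d) (C : Finset (Finset (E d))) {n : ℕ}
    (hC : ∀ Q ∈ C, Q.card = n + 1) (hcard : C.card ≤ Ac d ^ (n + 1)) :
    μ.real {ω | ∃ Q ∈ C, Disjoint (Q : Set (E d)) (opn X ω)} ≤ (Ac d * (1 - p)) ^ (n + 1) := by
  have e : {ω | ∃ Q ∈ C, Disjoint (Q : Set (E d)) (opn X ω)} =
      ⋃ Q ∈ C, {ω | Disjoint (Q : Set (E d)) (opn X ω)} := by ext ω; simp
  rw [e]
  refine (measureReal_biUnion_finset_le _ _).trans ?_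
  rw [sum_congr rfl fun Q hQ => by rw [h.closed, hC Q hQ], sum_const, nsmul_eq_mul, mul_pow]
  exact mul_le_mul_of_nonneg_right (by exact_mod_cast hcard) (pow_nonneg (h.q_nonneg i0) _)

lemma tail (i0 : Fin d) (hq : Ac d * (1 - p) ≤ 1 / 2) (x : V d) (m : ℕ) :
    μ.real {ω | ∃ n, m ≤ n + 1 ∧ ∃ Q ∈ cuts i0 x n, Disjoint (Q : Set (E d)) (opn X ω)} ≤
      2 * (Ac d * (1 - p)) ^ m := by
  set r := Ac d * (1 - p) with hr
  have hr0 : 0 ≤ r := mul_nonneg (by positivity) (h.q_nonneg i0)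
  have hsub : {ω | ∃ n, m ≤ n + 1 ∧ ∃ Q ∈ cuts i0 x n, Disjoint (Q : Set (E d)) (opn X ω)} ⊆
      ⋃ j : ℕ, {ω | ∃ n, n + 1 = m + j ∧ ∃ Q ∈ cuts i0 x n, Disjoint (Q : Set (E d)) (opn X ω)} := by
    rintro ω ⟨n, h1, h2⟩
    exact Set.mem_iUnion.2 ⟨n + 1 - m, n, by omega, h2⟩
  refine (measureReal_mono hsub).trans ?_
  refine (real_iUnion_le (f := fun j => r ^ m * (1 / 2) ^ j)
    (summable_geometric_two.mul_left _) fun j => ?_).trans ?_
  · rcases Nat.eq_zero_or_pos (m + j) with h0 | h0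
    · have : {ω | ∃ n, n + 1 = m + j ∧ ∃ Q ∈ cuts i0 x n, Disjoint (Q : Set (E d)) (opn X ω)} = ∅ := by
        ext ω; simp [h0]
      rw [this]; simp; positivity
    · obtain ⟨n, hn⟩ : ∃ n, n + 1 = m + j := ⟨m + j - 1, by omega⟩
      have : {ω | ∃ n, n + 1 = m + j ∧ ∃ Q ∈ cuts i0 x n, Disjoint (Q : Set (E d)) (opn X ω)} =
          {ω | ∃ Q ∈ cuts i0 x n, Disjoint (Q : Set (E d)) (opn X ω)} := by
        ext ω
        simp only [Set.mem_ofPred_eq]
        constructor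
        · rintro ⟨n', h1, h2⟩
          have : n' = n := by omega
          exact this ▸ h2
        · exact fun h2 => ⟨n, hn, h2⟩
      rw [this]
      refine (h.closed_family i0 _ (fun Q hQ => card_of_mem_cuts hQ) (card_cuts i0 x n)).trans ?_
      rw [hn, pow_add]
      exact mul_le_mul_of_nonneg_left (pow_le_pow_left₀ hr0 hq j) (pow_nonneg hr0 m)
  · rw [tsum_mul_left, tsum_geometric_two, mul_comm]

open Classical in
lemma half (i0 : Fin d) (hq : (4 * Ac d) ^ 2 * (1 - p) ≤ 1) (x : V d) (n : ℕ) :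
    μ.real {ω | ¬ ∀ Q ∈ cuts i0 x n, Q.card ≤ 2 * (Q.filter (· ∈ opn X ω)).card} ≤
      2 * Ac d * (1 / 2) ^ n := by
  have hA : (1 : ℝ) ≤ Ac d := by
    have : 1 ≤ Dg d ^ 2 := Nat.one_le_pow _ _ (one_le_Dg i0.pos)
    have : 1 ≤ Ac d := by unfold Ac; omega
    exact_mod_cast this
  have hq0 := h.q_nonneg i0
  set j := (n + 1) / 2 with hj
  have hsub : {ω | ¬ ∀ Q ∈ cuts i0 x n, Q.card ≤ 2 * (Q.filter (· ∈ opn X ω)).card} ⊆
      ⋃ Q ∈ cuts i0 x n, ⋃ T ∈ powersetCard j Q, {ω | Disjoint (T : Set (E d)) (opn X ω)} := by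
    intro ω hω
    simp only [Set.mem_ofPred_eq, not_forall, not_le] at hω
    obtain ⟨Q, hQ, hlt⟩ := hω
    have hc := card_filter_add_card_filter_not (s := Q) (· ∈ opn X ω)
    have hQc := card_of_mem_cuts hQ
    obtain ⟨T, hT, hTc⟩ := exists_subset_card_eq (s := Q.filter fun a => ¬ a ∈ opn X ω) (n := j)
      (by omega)
    simp only [Set.mem_iUnion]
    refine ⟨Q, hQ, T, mem_powersetCard.2 ⟨hT.trans (filter_subset _ _), hTc⟩, ?_⟩
    exact Set.disjoint_left.2 fun a ha => (mem_filter.1 (hT ha)).2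
  refine (measureReal_mono hsub (measure_ne_top _ _)).trans
    ((measureReal_biUnion_finset_le _ _).trans ?_)
  have hQ : ∀ Q ∈ cuts i0 x n, μ.real (⋃ T ∈ powersetCard j Q,
      {ω | Disjoint (T : Set (E d)) (opn X ω)}) ≤ 2 ^ (n + 1) * (1 - p) ^ j := by
    intro Q hQ
    refine (measureReal_biUnion_finset_le _ _).trans ?_
    rw [sum_congr rfl fun T hT => by rw [h.closed, (mem_powersetCard.1 hT).2], sum_const,
      nsmul_eq_mul, card_powersetCard, card_of_mem_cuts hQ]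
    refine mul_le_mul_of_nonneg_right ?_ (pow_nonneg hq0 _)
    exact_mod_cast Nat.choose_le_two_pow _ _
  refine (sum_le_sum hQ).trans ?_
  rw [sum_const, nsmul_eq_mul]
  have h1 : ((cuts i0 x n).card : ℝ) ≤ Ac d ^ (n + 1) := by exact_mod_cast card_cuts i0 x n
  have h2 : (4 * Ac d : ℝ) ^ n * (1 - p) ^ j ≤ 1 := by
    calc (4 * Ac d : ℝ) ^ n * (1 - p) ^ j ≤ (4 * Ac d : ℝ) ^ (2 * j) * (1 - p) ^ j :=
          mul_le_mul_of_nonneg_right (pow_le_pow_right₀ (by linarith) (by omega))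
            (pow_nonneg hq0 _)
      _ = ((4 * Ac d) ^ 2 * (1 - p)) ^ j := by rw [mul_pow _ (1 - p), pow_mul]
      _ ≤ 1 := pow_le_one₀ (by positivity) hq
  calc ((cuts i0 x n).card : ℝ) * (2 ^ (n + 1) * (1 - p) ^ j) ≤
        Ac d ^ (n + 1) * (2 ^ (n + 1) * (1 - p) ^ j) :=
        mul_le_mul_of_nonneg_right h1 (by positivity)
    _ = 2 * Ac d * (1 / 2) ^ n * ((4 * Ac d : ℝ) ^ n * (1 - p) ^ j) := by
        have e : (4 : ℝ) ^ n * (1 / 2) ^ n = 2 ^ n := by rw [← mul_pow]; norm_num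
        rw [mul_pow, pow_succ, pow_succ, ← e]; ring
    _ ≤ 2 * Ac d * (1 / 2) ^ n * 1 := mul_le_mul_of_nonneg_left h2 (by positivity)
    _ = _ := mul_one _

lemma dang_ge (i0 : Fin d) (x : V d) :
    p * (1 - p) ^ (2 * d - 1) ≤ μ.real {ω | dang i0 (opn X ω) x} := by
  classical
  set F : Finset (E d) := (univ.image fun i => (x, i)) ∪ univ.image fun i => (x - ee i, i) with hF
  have hne : ∀ i, (x - ee i, i) ≠ (x, i0) := by
    intro i hi
    have := congrFun (Prod.mk.inj hi).1 i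
    simp at this
  have e : {ω | dang i0 (opn X ω) x} = {ω | ∀ a ∈ F, (X a ω ↔ a = (x, i0))} := by
    ext ω
    simp only [dang, opn, Set.mem_ofPred_eq, hF, mem_union, mem_image, mem_univ, true_and]
    constructor
    · rintro ⟨h1, h2, h3⟩ a (⟨i, rfl⟩ | ⟨i, rfl⟩)
      · by_cases hi : i = i0
        · simp [hi, h1]
        · simp [hi, h2 i hi]
      · simp only [hne i, iff_false]; exact h3 i
    · intro H
      refine ⟨(H _ (Or.inl ⟨i0, rfl⟩)).2 rfl, fun i hi hX => ?_, fun i hX => ?_⟩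
      · exact hi (Prod.mk.inj ((H _ (Or.inl ⟨i, rfl⟩)).1 hX)).2
      · exact hne i ((H _ (Or.inr ⟨i, rfl⟩)).1 hX)
  have hmem : (x, i0) ∈ F := mem_union_left _ (mem_image.2 ⟨i0, mem_univ _, rfl⟩)
  have hcard : F.card ≤ 2 * d := by
    refine (card_union_le _ _).trans ?_
    have h1 : (univ.image fun i : Fin d => ((x, i) : E d)).card ≤ d :=
      card_image_le.trans (by simp)
    have h2 : (univ.image fun i : Fin d => ((x - ee i, i) : E d)).card ≤ d :=
      card_image_le.trans (by simp)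
    omega
  rw [e, h.pattern, ← mul_prod_erase F _ hmem, if_pos rfl]
  refine mul_le_mul_of_nonneg_left ?_ (h.p_nonneg i0)
  refine le_of_le_of_eq ?_ (prod_congr rfl (f := fun _ => 1 - p)
    fun a ha => (if_neg (mem_erase.1 ha).1).symm)
  rw [prod_const, card_erase_of_mem hmem]
  exact pow_le_pow_of_le_one (h.q_nonneg i0) (by linarith [h.p_nonneg i0]) (by omega)

omit [IsProbabilityMeasure μ] h [MeasurableSpace Ω] in
lemma local_eq (F : Finset (E d)) (Ψ : Set (E d) → Prop) :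
    {ω | Ψ (opn X ω ∩ F)} = (fun ω (a : F) => X a ω) ⁻¹'
      {f : F → Prop | Ψ {a | ∃ ha : a ∈ F, f ⟨a, ha⟩}} := by
  ext ω
  have : opn X ω ∩ F = {a | ∃ _ : a ∈ F, X a ω} := by
    ext a; simp [opn, and_comm]
  simp [this]

omit [IsProbabilityMeasure μ] in
lemma local_meas (F : Finset (E d)) (Ψ : Set (E d) → Prop) :
    MeasurableSet {ω | Ψ (opn X ω ∩ F)} := by
  rw [local_eq]
  exact (measurable_pi_lambda _ fun a : F => h.meas a) MeasurableSet.of_discrete

omit [IsProbabilityMeasure μ] in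
lemma local_indep {F G : Finset (E d)} (hFG : Disjoint F G) (Ψ Φ : Set (E d) → Prop) :
    μ.real ({ω | Ψ (opn X ω ∩ F)} ∩ {ω | Φ (opn X ω ∩ G)}) =
      μ.real {ω | Ψ (opn X ω ∩ F)} * μ.real {ω | Φ (opn X ω ∩ G)} := by
  rw [local_eq, local_eq, measureReal_def,
    (h.indep.indepFun_finset F G hFG h.meas).measure_inter_preimage_eq_mul _ _
      MeasurableSet.of_discrete MeasurableSet.of_discrete, ENNReal.toReal_mul]
  rfl

lemma finite_le (hd : 3 ≤ d) (i0 : Fin d) (hq : Ac d * (1 - p) ≤ 1 / 2) (x : V d) :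
    μ.real {ω | (comp (opn X ω) x).Finite} ≤ 2 * (Ac d * (1 - p)) ^ (2 * d) := by
  refine le_trans (measureReal_mono ?_) (h.tail i0 hq x (2 * d))
  intro ω hω
  obtain ⟨n, h1, _, h3⟩ := cut_of_finite hd i0 hω
  exact ⟨n, h1, h3⟩

lemma psi_ge (hd : 3 ≤ d) (i0 : Fin d) (hq : Ac d * (1 - p) ≤ 1 / 2) (x : V d) {R : ℕ}
    (hR : 1 ≤ R) : p * (1 - p) ^ (2 * d - 1) - 2 * (Ac d * (1 - p)) ^ (2 * d) ≤
      μ.real {ω | Psi i0 x R (opn X ω ∩ boxE x R)} := by
  have hsub : {ω | dang i0 (opn X ω) x} ⊆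
      {ω | Psi i0 x R (opn X ω ∩ boxE x R)} ∪ {ω | (comp (opn X ω) x).Finite} := by
    intro ω hω
    by_cases hf : (comp (opn X ω) x).Finite
    · exact Or.inr hf
    · exact Or.inl (psi_of_infinite hR hω hf)
  have h1 := (measureReal_mono (μ := μ) hsub).trans (measureReal_union_le _ _)
  linarith [h.dang_ge i0 x, h.finite_le hd i0 hq x]

open Classical in
lemma ae_half (i0 : Fin d) (hq : (4 * Ac d) ^ 2 * (1 - p) ≤ 1) :
    ∀ᵐ ω ∂μ, ∀ x : V d, ∀ᶠ n in atTop,
      ∀ Q ∈ cuts i0 x n, Q.card ≤ 2 * (Q.filter (· ∈ opn X ω)).card := by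
  rw [ae_all_iff]
  intro x
  filter_upwards [ae_eventually_of_summable (summable_geometric_two.mul_left _)
    (h.half i0 hq x)] with ω hω
  filter_upwards [hω] with n hn
  simpa using hn

lemma ae_unique (hd : 2 ≤ d) (i0 : Fin d) (hq : Ac d * (1 - p) ≤ 1 / 2) :
    ∀ᵐ ω ∂μ, ∀ x y : V d, (comp (opn X ω) x).Infinite → (comp (opn X ω) y).Infinite →
      y ∈ comp (opn X ω) x := by
  have hr0 : 0 ≤ Ac d * (1 - p) := mul_nonneg (by positivity) (h.q_nonneg i0)
  have : ∀ᵐ ω ∂μ, ∀ a : E d, ∀ᶠ n in atTop,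
      ω ∉ {ω | ∃ Q ∈ animals n a, Disjoint (Q : Set (E d)) (opn X ω)} := by
    rw [ae_all_iff]
    intro a
    refine ae_eventually_of_summable summable_geometric_two fun n => ?_
    refine (h.closed_family i0 _ (fun Q hQ => card_of_mem_animals hQ)
      (card_animals_le a n)).trans ?_
    exact (pow_le_pow_left₀ hr0 hq _).trans
      (pow_le_pow_of_le_one (by norm_num) (by norm_num) (Nat.le_succ n))
  filter_upwards [this] with ω hω x y hx hy
  by_contra hxy
  obtain ⟨a, ha⟩ := closed_animals_of_two hd hx hy hxy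
  obtain ⟨n, hn⟩ := (hω a).exists
  exact hn (ha n)

open Classical in
lemma ae_count (hd : 3 ≤ d) (i0 : Fin d) (hq : Ac d * (1 - p) ≤ 1 / 2) {c : ℝ} (hc : 0 < c)
    (hcp : c ≤ p * (1 - p) ^ (2 * d - 1) - 2 * (Ac d * (1 - p)) ^ (2 * d)) :
    ∀ᵐ ω ∂μ, ∀ᶠ k : ℕ in atTop, c / 2 * (box (0 : V d) (2 ^ k)).card <
      ((box (0 : V d) (2 ^ k)).filter fun x =>
        dang i0 (opn X ω) x ∧ (comp (opn X ω) x).Infinite).card := by
  set M : ℕ → ℕ := fun k => (d + 1) * (k + 2) with hM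
  have hM1 : ∀ k, 1 ≤ M k := fun k => Nat.mul_pos (by omega) (by omega)
  have hr0 : 0 ≤ Ac d * (1 - p) := mul_nonneg (by positivity) (h.q_nonneg i0)
  have s1 : Summable fun k : ℕ => 4 * (5 * (d + 1) ^ 2 : ℝ) ^ d / c ^ 2 * 4 *
      (((k + 2 : ℕ) : ℝ) ^ (2 * d) * (1 / 2) ^ (k + 2)) := by
    refine Summable.mul_left _ ?_
    exact (summable_nat_add_iff (f := fun k : ℕ => (k : ℝ) ^ (2 * d) * (1 / 2) ^ k) 2).2
      (summable_pow_mul_geometric_of_norm_lt_one (2 * d) (by norm_num))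
  have e1 := ae_eventually_of_summable (μ := μ) (s := fun k => {ω |
      (((box (0 : V d) (2 ^ k)).filter fun x =>
        ω ∈ {ω | Psi i0 x (M k ^ 2) (opn X ω ∩ boxE x (M k ^ 2))}).card : ℝ) ≤
          c / 2 * (box (0 : V d) (2 ^ k)).card}) s1 (by
    intro k
    refine (chebyshev_count (box (0 : V d) (2 ^ k))
      (fun x => {ω | Psi i0 x (M k ^ 2) (opn X ω ∩ boxE x (M k ^ 2))})
      (fun x => h.local_meas _ _) (fun x y => y ∈ box x (2 * M k ^ 2))
      (D := (2 * (2 * M k ^ 2) + 1) ^ d) ?_ ?_ hc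
      (fun x _ => hcp.trans (h.psi_ge hd i0 hq x (Nat.one_le_pow _ _ (hM1 k))))
      ⟨0, mem_box.2 (by simp)⟩).trans ?_
    · intro x _
      rw [← card_box x]
      exact card_le_card fun y hy => (mem_filter.1 hy).2
    · intro x _ y _ hxy
      refine h.local_indep ?_ _ _
      rw [Finset.disjoint_left]
      intro a ha hb
      refine hxy (mem_box.2 fun l => ?_)
      have a1 := abs_le.1 (mem_boxE.1 ha l)
      have a2 := abs_le.1 (mem_boxE.1 hb l)
      rw [abs_le]; push_cast at a1 a2 ⊢; constructor <;> linarith [a1.1, a1.2, a2.1, a2.2]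
    · have b1 : (2 : ℝ) ^ k ≤ (box (0 : V d) (2 ^ k)).card := by
        rw [card_box]
        have : 2 ^ k ≤ (2 * 2 ^ k + 1) ^ d :=
          le_trans (by omega) (Nat.le_self_pow (by omega) _)
        exact_mod_cast this
      have b2 : (((2 * (2 * M k ^ 2) + 1) ^ d : ℕ) : ℝ) ≤
          (5 * (d + 1) ^ 2 : ℝ) ^ d * ((k + 2 : ℕ) : ℝ) ^ (2 * d) := by
        have : (2 * (2 * M k ^ 2) + 1) ^ d ≤ (5 * (d + 1) ^ 2) ^ d * (k + 2) ^ (2 * d) := by
          rw [pow_mul, ← mul_pow]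
          refine Nat.pow_le_pow_left ?_ d
          have : 1 ≤ M k ^ 2 := Nat.one_le_pow _ _ (hM1 k)
          have e : M k ^ 2 = (d + 1) ^ 2 * (k + 2) ^ 2 := by simp only [hM]; ring
          rw [mul_assoc, ← e]; omega
        exact_mod_cast this
      calc _ ≤ 4 * ((5 * (d + 1) ^ 2 : ℝ) ^ d * ((k + 2 : ℕ) : ℝ) ^ (2 * d)) / (c ^ 2 * 2 ^ k) := by
            gcongr
        _ = _ := by
            rw [one_div, inv_pow, pow_add]; field_simp; norm_num)
  have e2 := ae_eventually_of_summable (μ := μ) (s := fun k => ⋃ x ∈ box (0 : V d) (2 ^ k),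
      {ω | ∃ n, M k ≤ n + 1 ∧ ∃ Q ∈ cuts i0 x n, Disjoint (Q : Set (E d)) (opn X ω)})
      summable_geometric_two (by
    intro k
    refine (measureReal_biUnion_finset_le _ _).trans ?_
    refine (sum_le_sum fun x _ => h.tail i0 hq x (M k)).trans ?_
    rw [sum_const, nsmul_eq_mul, card_box]
    have b1 : (((2 * 2 ^ k + 1) ^ d : ℕ) : ℝ) ≤ 2 ^ ((k + 2) * d) := by
      have : (2 * 2 ^ k + 1) ^ d ≤ 2 ^ ((k + 2) * d) := by
        rw [pow_mul]
        refine Nat.pow_le_pow_left ?_ d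
        have : 1 ≤ 2 ^ k := Nat.one_le_two_pow
        rw [pow_add]; omega
      exact_mod_cast this
    have b2 : (Ac d * (1 - p)) ^ M k ≤ (1 / 2) ^ M k := pow_le_pow_left₀ hr0 hq _
    calc _ ≤ 2 ^ ((k + 2) * d) * (2 * (1 / 2 : ℝ) ^ M k) := by gcongr
      _ = (1 / 2) ^ k / 2 := by
          have : M k = (k + 2) * d + (k + 2) := by simp only [hM]; ring
          rw [this, pow_add, pow_add]
          simp only [one_div, inv_pow]
          field_simp
      _ ≤ (1 / 2) ^ k := by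
          have : (0 : ℝ) ≤ (1 / 2) ^ k := by positivity
          linarith)
  filter_upwards [e1, e2] with ω h1 h2
  filter_upwards [h1, h2] with k h1 h2
  simp only [not_le] at h1
  refine h1.trans_le ?_
  refine Nat.cast_le.2 (card_le_card fun x hx => ?_)
  obtain ⟨hx1, hx2⟩ := mem_filter.1 hx
  obtain ⟨a1, a2⟩ := of_psi hd (hM1 k) hx2
  refine mem_filter.2 ⟨hx1, a1, a2.resolve_right fun a3 => h2 ?_⟩
  simp only [Set.mem_iUnion]
  exact ⟨x, hx1, a3⟩

end Bern

end Pool.Agent.P.MP_b4265e_pr
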